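import Mathlib

open Finset

namespace Pool.Agent.Lib.MP_a2947a_pr

variable {m : ℕ}

/-- Families of pairwise disjoint nonempty subsets of `Fin m`. -/
def Valid (P : Finset (Finset (Fin m))) : Prop :=
  (∀ B ∈ P, B.Nonempty) ∧ (P : Set (Finset (Fin m))).PairwiseDisjoint id

noncomputable instance (P : Finset (Finset (Fin m))) : Decidable (Valid P) := Classical.dec _

/-- The elements not covered by the family. -/
def act (P : Finset (Finset (Fin m))) : Finset (Fin m) := (P.biUnion id)ᶜ

/-- The monomial attached to a family. -/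
noncomputable def mono (x : ℝ) (y : ℕ → ℝ) (P : Finset (Finset (Fin m))) : ℝ :=
  x ^ (act P).card * ∏ B ∈ P, y B.card

lemma Valid.subset {P P' : Finset (Finset (Fin m))} (h : Valid P) (hs : P' ⊆ P) : Valid P' :=
  ⟨fun B hB => h.1 B (hs hB), h.2.subset (by exact_mod_cast hs)⟩

lemma valid_empty : Valid (∅ : Finset (Finset (Fin m))) := by
  constructor
  · intro B hB
    simp at hB
  · simp

lemma card_act {P : Finset (Finset (Fin m))} (h : Valid P) :
    (act P).card + ∑ B ∈ P, B.card = m := by
  have h1 : (P.biUnion id).card = ∑ B ∈ P, B.card := card_biUnion h.2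
  have h2 := card_compl_add_card (P.biUnion id)
  rw [Fintype.card_fin] at h2
  unfold act
  rw [← h1]
  exact h2

lemma card_act_sub {P P' : Finset (Finset (Fin m))} (h : Valid P) (hs : P' ⊆ P) :
    (act P').card = (act P).card + ∑ B ∈ P \ P', B.card := by
  have h1 := card_act h
  have h2 := card_act (h.subset hs)
  have h3 := sum_sdiff (f := fun B : Finset (Fin m) => B.card) hs
  omega

lemma act_disjoint {P : Finset (Finset (Fin m))} {C : Finset (Fin m)}
    (hC : C ⊆ act P) {B : Finset (Fin m)} (hB : B ∈ P) : Disjoint C B := by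
  rw [disjoint_left]
  intro x hx hxB
  have := hC hx
  unfold act at this
  rw [mem_compl] at this
  exact this (mem_biUnion.2 ⟨B, hB, hxB⟩)

lemma notMem_of_subset_act {P : Finset (Finset (Fin m))} {C : Finset (Fin m)}
    (hC : C ⊆ act P) (hne : C.Nonempty) : C ∉ P := by
  intro h
  have := act_disjoint hC h
  rw [disjoint_self] at this
  exact hne.ne_empty this

lemma Valid.insert {P : Finset (Finset (Fin m))} {C : Finset (Fin m)} (h : Valid P)
    (hC : C ⊆ act P) (hne : C.Nonempty) : Valid (insert C P) := by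
  constructor
  · intro B hB
    rcases mem_insert.1 hB with rfl | hB
    · exact hne
    · exact h.1 B hB
  · rw [coe_insert, Set.pairwiseDisjoint_insert]
    exact ⟨h.2, fun B hB _ => act_disjoint hC hB⟩

lemma act_insert {P : Finset (Finset (Fin m))} {C : Finset (Fin m)} :
    act (insert C P) = act P \ C := by
  unfold act
  ext x
  simp only [mem_compl, mem_sdiff, biUnion_insert, mem_union, id]
  tauto

lemma card_act_insert {P : Finset (Finset (Fin m))} {C : Finset (Fin m)}
    (hC : C ⊆ act P) : (act (insert C P)).card = (act P).card - C.card := by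
  rw [act_insert, card_sdiff_of_subset hC]

/-- The algebraic form of the moment recurrence. -/
lemma mono_shift {P : Finset (Finset (Fin m))} (hP : Valid P) (x u : ℝ) (y : ℕ → ℝ) :
    mono (x + u) (fun j => y j + (x + u) ^ j) P =
      ∑ P' ∈ P.powerset, (∑ C ∈ (act P').powerset, u ^ C.card * x ^ ((act P').card - C.card)) *
        ∏ B ∈ P', y B.card := by
  unfold mono
  rw [prod_add, mul_sum]
  refine sum_congr rfl (fun P' hP' => ?_)
  rw [mem_powerset] at hP'
  rw [sum_pow_mul_eq_add_pow, card_act_sub hP hP', pow_add, add_comm u x]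
  rw [← prod_pow_eq_pow_sum]
  ring

lemma mono_insert {P : Finset (Finset (Fin m))} {C : Finset (Fin m)} (hC : C ⊆ act P)
    (hne : C.Nonempty) (x : ℝ) (y : ℕ → ℝ) :
    mono x y (insert C P) = y C.card * x ^ ((act P).card - C.card) * ∏ B ∈ P, y B.card := by
  unfold mono
  rw [card_act_insert hC, prod_insert (notMem_of_subset_act hC hne)]
  ring

/-- Averaging the shifted monomial over the past values. -/
lemma mono_average {P : Finset (Finset (Fin m))} (hP : Valid P) (n : ℕ) (X : ℕ → ℝ) (x : ℝ) :
    (∑ k ∈ range (n + 1), mono (x + X k)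
      (fun j => (∑ i ∈ range (n + 1), X i ^ j) + (x + X k) ^ j) P) / (n + 1) =
      ∑ P' ∈ P.powerset, (mono x (fun j => ∑ i ∈ range (n + 1), X i ^ j) P' +
        (∑ C ∈ (act P').powerset.erase ∅,
          mono x (fun j => ∑ i ∈ range (n + 1), X i ^ j) (insert C P')) / (n + 1)) := by
  set y : ℕ → ℝ := fun j => ∑ i ∈ range (n + 1), X i ^ j with hy
  have hn : (0 : ℝ) < n + 1 := by positivity
  have h1 : ∀ k, mono (x + X k) (fun j => (∑ i ∈ range (n + 1), X i ^ j) + (x + X k) ^ j) P =
      ∑ P' ∈ P.powerset, (∑ C ∈ (act P').powerset, X k ^ C.card *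
        x ^ ((act P').card - C.card)) * ∏ B ∈ P', y B.card := fun k => mono_shift hP x (X k) y
  simp_rw [h1]
  rw [sum_comm, sum_div]
  refine sum_congr rfl (fun P' hP' => ?_)
  rw [← sum_mul, sum_comm]
  have h2 : ∀ C ∈ (act P').powerset, ∑ k ∈ range (n + 1), X k ^ C.card *
      x ^ ((act P').card - C.card) = y C.card * x ^ ((act P').card - C.card) := by
    intro C _
    rw [← sum_mul]
  rw [sum_congr rfl h2]
  have hmem : (∅ : Finset (Fin m)) ∈ (act P').powerset := empty_mem_powerset _
  rw [← add_sum_erase _ _ hmem]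
  have h3 : y (∅ : Finset (Fin m)).card = n + 1 := by
    simp [hy]
  rw [h3]
  have h4 : ∑ C ∈ (act P').powerset.erase ∅, mono x y (insert C P') =
      (∑ C ∈ (act P').powerset.erase ∅, y C.card * x ^ ((act P').card - C.card)) *
        ∏ B ∈ P', y B.card := by
    rw [sum_mul]
    refine sum_congr rfl (fun C hC => ?_)
    rw [mem_erase, mem_powerset] at hC
    exact mono_insert hC.2 (nonempty_iff_ne_empty.2 hC.1) x y
  rw [h4]
  unfold mono
  simp only [card_empty, Nat.sub_zero]
  field_simp

end Pool.Agent.Lib.MP_a2947a_pr
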