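import Mathlib

open Finset Filter Topology Asymptotics

namespace Pool.Agent.Lib.MP_a2947a_pr

lemma sqrt_succ_sub (n : ℕ) :
    Real.sqrt ((n : ℝ) + 1) - Real.sqrt n = 1 / (Real.sqrt ((n : ℝ) + 1) + Real.sqrt n) := by
  have h1 : 0 < Real.sqrt ((n : ℝ) + 1) := Real.sqrt_pos.2 (by positivity)
  have h2 : 0 ≤ Real.sqrt (n : ℝ) := Real.sqrt_nonneg _
  have h3 : Real.sqrt ((n : ℝ) + 1) ^ 2 = n + 1 := Real.sq_sqrt (by positivity)
  have h4 : Real.sqrt (n : ℝ) ^ 2 = n := Real.sq_sqrt (by positivity)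
  rw [eq_div_iff (by positivity)]
  nlinarith

/-- If the growth factors are `1 + μ / √(n+1) + O(1/(n+1))`, then `log Φ n ∼ 2 μ √n`. -/
theorem log_div_sqrt_tendsto (Φ : ℕ → ℝ) (hpos : ∀ n, 0 < Φ n) (μ K : ℝ) (hμ : 0 ≤ μ)
    (hK : 0 ≤ K)
    (hup : ∀ n : ℕ, Φ (n + 1) ≤ Φ n * (1 + μ / Real.sqrt (n + 1) + K / (n + 1)))
    (hlow : ∀ n : ℕ, Φ n * ((1 + μ / Real.sqrt (n + 1)) * (1 - K / (n + 1))) ≤ Φ (n + 1)) :
    Tendsto (fun n : ℕ => Real.log (Φ n) / Real.sqrt n) atTop (𝓝 (2 * μ)) := by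
  set g : ℕ → ℝ := fun n => Real.sqrt ((n : ℝ) + 1) - Real.sqrt n with hg
  set f : ℕ → ℝ := fun n => Real.log (Φ (n + 1)) - Real.log (Φ n) - 2 * μ * g n with hf
  have hg0 : ∀ n, 0 ≤ g n := by
    intro n
    simp only [hg, sub_nonneg]
    exact Real.sqrt_le_sqrt (by linarith)
  have hgsum : ∀ n : ℕ, ∑ i ∈ range n, g i = Real.sqrt n := by
    intro n
    induction n with
    | zero => simp
    | succ n ih =>
      rw [sum_range_succ, ih]
      simp only [hg]
      push_cast
      ring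
  have hfsum : ∀ n : ℕ, ∑ i ∈ range n, f i =
      Real.log (Φ n) - Real.log (Φ 0) - 2 * μ * Real.sqrt n := by
    intro n
    induction n with
    | zero => simp
    | succ n ih =>
      rw [sum_range_succ, ih]
      simp only [hf, hg]
      push_cast
      ring
  have hsqrt : Tendsto (fun n : ℕ => Real.sqrt (n : ℝ)) atTop atTop :=
    Real.tendsto_sqrt_atTop.comp tendsto_natCast_atTop_atTop
  -- the increments
  have hbound : ∀ᶠ n : ℕ in atTop, ‖f n‖ ≤ (K + 2 * K + μ ^ 2 + 2 * μ + 1) * (1 / ((n : ℝ) + 1)) := by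
    have hN : ∀ᶠ n : ℕ in atTop, 2 * K ≤ (n : ℝ) + 1 := by
      have : Tendsto (fun n : ℕ => (n : ℝ) + 1) atTop atTop :=
        tendsto_atTop_add_const_right _ _ tendsto_natCast_atTop_atTop
      exact this.eventually_ge_atTop _
    filter_upwards [hN] with n hn
    have hn1 : (0 : ℝ) < (n : ℝ) + 1 := by positivity
    set r := Real.sqrt ((n : ℝ) + 1) with hr
    have hr0 : 0 < r := Real.sqrt_pos.2 hn1
    have hr1 : 1 ≤ r := by
      rw [hr, Real.one_le_sqrt]
      have : (0 : ℝ) ≤ n := Nat.cast_nonneg n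
      linarith
    have hr2 : r ^ 2 = n + 1 := Real.sq_sqrt hn1.le
    have hinv : 1 / ((n : ℝ) + 1) = (1 / r) ^ 2 := by
      rw [← hr2]
      field_simp
    set q := 1 / ((n : ℝ) + 1) with hq
    have hq0 : 0 < q := by positivity
    have hmr : μ / r = μ * (1 / r) := by ring
    -- g n close to 1 / (2 r)
    have hgn : |2 * g n - 1 / r| ≤ q := by
      simp only [hg]
      rw [sqrt_succ_sub n, ← hr]
      set t := Real.sqrt (n : ℝ) with ht
      have ht0 : 0 ≤ t := Real.sqrt_nonneg _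
      have ht2 : t ^ 2 = n := Real.sq_sqrt (Nat.cast_nonneg n)
      have htr : t ≤ r := Real.sqrt_le_sqrt (by linarith)
      have h1 : 2 * (1 / (r + t)) - 1 / r = (r - t) / (r * (r + t)) := by
        field_simp
        ring
      have h2 : 0 ≤ (r - t) / (r * (r + t)) := div_nonneg (by linarith) (by positivity)
      rw [h1, abs_of_nonneg h2, hinv]
      rw [div_le_iff₀ (by positivity)]
      have h3 : (1 / r) ^ 2 * (r * (r + t)) = (r + t) / r := by
        field_simp
      rw [h3, le_div_iff₀ hr0]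
      have h4 : (r - t) * (r + t) = 1 := by nlinarith
      have h5 : r - t ≤ 1 := by nlinarith
      nlinarith
    -- upper bound
    have hlogup : Real.log (Φ (n + 1)) - Real.log (Φ n) ≤ μ * (1 / r) + K * q := by
      have h1 : 0 < 1 + μ / r + K / ((n : ℝ) + 1) := by positivity
      have h2 : Real.log (Φ (n + 1)) ≤ Real.log (Φ n * (1 + μ / r + K / (n + 1))) :=
        Real.log_le_log (hpos _) (hup n)
      rw [Real.log_mul (hpos n).ne' h1.ne'] at h2
      have h3 := Real.log_le_sub_one_of_pos h1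
      have h4 : K / ((n : ℝ) + 1) = K * q := by rw [hq]; ring
      rw [h4, hmr] at h3
      rw [h4, hmr] at h2
      linarith
    -- lower bound
    have hloglow : μ * (1 / r) - μ ^ 2 * q - 2 * K * q ≤ Real.log (Φ (n + 1)) - Real.log (Φ n) := by
      have hKq : K * q ≤ 1 / 2 := by
        rw [hq, mul_one_div, div_le_iff₀ hn1]
        linarith
      have h0 : K / ((n : ℝ) + 1) = K * q := by rw [hq]; ring
      have h1 : 0 < 1 + μ / r := by positivity
      have h2 : 0 < 1 - K / ((n : ℝ) + 1) := by rw [h0]; linarith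
      have h3 : Real.log (Φ n * ((1 + μ / r) * (1 - K / (n + 1)))) ≤ Real.log (Φ (n + 1)) :=
        Real.log_le_log (mul_pos (hpos n) (mul_pos h1 h2)) (hlow n)
      rw [Real.log_mul (hpos n).ne' (mul_pos h1 h2).ne', Real.log_mul h1.ne' h2.ne'] at h3
      have h4 : μ * (1 / r) - μ ^ 2 * q ≤ Real.log (1 + μ / r) := by
        have h5 := Real.one_sub_inv_le_log_of_pos h1
        have h6 : μ * (1 / r) - μ ^ 2 * q ≤ 1 - (1 + μ / r)⁻¹ := by
          have h7 : 1 - (1 + μ / r)⁻¹ = (μ / r) / (1 + μ / r) := by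
            field_simp
            ring
          rw [h7, le_div_iff₀ h1, hinv, hmr]
          have h8 : 0 ≤ μ * (1 / r) := by positivity
          nlinarith [mul_nonneg h8 (mul_nonneg h8 h8)]
        linarith
      have h9 : - (2 * K * q) ≤ Real.log (1 - K / ((n : ℝ) + 1)) := by
        have h5 := Real.one_sub_inv_le_log_of_pos h2
        have h6 : - (2 * K * q) ≤ 1 - (1 - K / ((n : ℝ) + 1))⁻¹ := by
          rw [h0] at h2 ⊢
          have h7 : 1 - (1 - K * q)⁻¹ = - (K * q) / (1 - K * q) := by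
            field_simp
            ring
          rw [h7, le_div_iff₀ h2]
          have h8 : 0 ≤ K * q := by positivity
          nlinarith
        linarith
      linarith
    rw [Real.norm_eq_abs, abs_le]
    have h1 := abs_le.1 hgn
    have h2 : 2 * μ * g n = μ * (2 * g n) := by ring
    have h3 : μ * (2 * g n - 1 / r) ≤ μ * q := mul_le_mul_of_nonneg_left h1.2 hμ
    have h4 : μ * (-q) ≤ μ * (2 * g n - 1 / r) := mul_le_mul_of_nonneg_left h1.1 hμ
    have h5 : 0 ≤ μ * q := by positivity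
    have h6 : 0 ≤ K * q := by positivity
    have h7 : 0 ≤ μ ^ 2 * q := by positivity
    constructor
    · simp only [hf]
      nlinarith
    · simp only [hf]
      nlinarith
  have hlittle : f =o[atTop] g := by
    have h1 : f =O[atTop] (fun n : ℕ => 1 / ((n : ℝ) + 1)) := by
      refine IsBigO.of_bound (K + 2 * K + μ ^ 2 + 2 * μ + 1) ?_
      filter_upwards [hbound] with n hn
      have : ‖1 / ((n : ℝ) + 1)‖ = 1 / ((n : ℝ) + 1) := by
        rw [Real.norm_eq_abs, abs_of_pos (by positivity)]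
      rw [this]
      exact hn
    refine h1.trans_isLittleO ?_
    rw [isLittleO_iff]
    intro c hc
    have hev : ∀ᶠ n : ℕ in atTop, 2 / c ≤ Real.sqrt (n : ℝ) := hsqrt.eventually_ge_atTop _
    filter_upwards [hev] with n hn
    have hn1 : (0 : ℝ) < (n : ℝ) + 1 := by positivity
    rw [Real.norm_eq_abs, Real.norm_eq_abs, abs_of_pos (by positivity), abs_of_nonneg (hg0 n)]
    simp only [hg]
    rw [sqrt_succ_sub n]
    set r := Real.sqrt ((n : ℝ) + 1) with hr
    set t := Real.sqrt (n : ℝ) with ht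
    have hr0 : 0 < r := Real.sqrt_pos.2 hn1
    have ht0 : 0 ≤ t := Real.sqrt_nonneg _
    have hr2 : r ^ 2 = n + 1 := Real.sq_sqrt hn1.le
    have htr : t ≤ r := Real.sqrt_le_sqrt (by linarith)
    have h2 : 2 ≤ c * r := by
      have : 2 / c ≤ r := hn.trans htr
      rwa [div_le_iff₀ hc, mul_comm] at this
    rw [← hr2, mul_one_div, div_le_div_iff₀ (by positivity) (by positivity)]
    nlinarith
  have hsum := hlittle.sum_range (fun n => hg0 n) (by simpa only [hgsum] using hsqrt)
  simp only [hgsum, hfsum] at hsum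
  have hconst : Tendsto (fun n : ℕ => Real.log (Φ 0) / Real.sqrt n) atTop (𝓝 0) :=
    hsqrt.const_div_atTop _
  have h1 := hsum.tendsto_div_nhds_zero
  have h2 := (h1.add hconst).add_const (2 * μ)
  simp only [zero_add] at h2
  refine h2.congr' ?_
  filter_upwards [eventually_gt_atTop 0] with n hn
  have hn0 : 0 < Real.sqrt (n : ℝ) := Real.sqrt_pos.2 (by exact_mod_cast hn)
  field_simp
  ring

end Pool.Agent.Lib.MP_a2947a_pr
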