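import Mathlib

open Finset

namespace Pool.Agent.Lib.MP_a2947a_pr

variable {S : Type*} [Fintype S] [DecidableEq S]

/-- The quadratic form. -/
noncomputable def quad (H : S → S → ℝ) (x : S → ℝ) : ℝ := ∑ s, ∑ t, H s t * (x s * x t)

lemma quad_add (H : S → S → ℝ) (hsymm : ∀ s t, H s t = H t s) (y z : S → ℝ) (t : ℝ) :
    quad H (fun s => y s + t * z s) =
      quad H y + 2 * t * (∑ s, z s * ∑ u, H s u * y u) + t ^ 2 * quad H z := by
  unfold quad
  have h1 : ∑ s, ∑ u, H s u * (y s * z u) = ∑ s, z s * ∑ u, H s u * y u := by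
    rw [sum_comm]
    refine sum_congr rfl (fun s _ => ?_)
    rw [mul_sum]
    refine sum_congr rfl (fun u _ => ?_)
    rw [hsymm u s]
    ring
  have h2 : ∑ s, ∑ u, H s u * (z s * y u) = ∑ s, z s * ∑ u, H s u * y u := by
    refine sum_congr rfl (fun s _ => ?_)
    rw [mul_sum]
    refine sum_congr rfl (fun u _ => ?_)
    ring
  have h3 : ∑ s, ∑ u, H s u * ((y s + t * z s) * (y u + t * z u)) =
      ∑ s, ∑ u, H s u * (y s * y u) + t * ∑ s, ∑ u, H s u * (y s * z u) +
        t * ∑ s, ∑ u, H s u * (z s * y u) + t ^ 2 * ∑ s, ∑ u, H s u * (z s * z u) := by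
    simp only [mul_sum, ← sum_add_distrib]
    refine sum_congr rfl (fun s _ => sum_congr rfl (fun u _ => ?_))
    ring
  rw [h3, h1, h2]
  ring

lemma quad_smul (H : S → S → ℝ) (x : S → ℝ) (c : ℝ) :
    quad H (fun s => c * x s) = c ^ 2 * quad H x := by
  unfold quad
  simp only [mul_sum]
  refine sum_congr rfl (fun s _ => sum_congr rfl (fun u _ => ?_))
  ring

lemma continuous_quad (H : S → S → ℝ) : Continuous (quad H) := by
  unfold quad
  fun_prop

/-- Existence of a positive eigenvector of a connected symmetric nonnegative matrix. -/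
theorem exists_perron [Nonempty S] (H : S → S → ℝ) (hsymm : ∀ s t, H s t = H t s)
    (hnn : ∀ s t, 0 ≤ H s t)
    (hconn : ∀ s t, Relation.ReflTransGen (fun a b => 0 < H a b) s t) :
    ∃ (μ : ℝ) (v : S → ℝ), (∀ s, 0 < v s) ∧ ∀ s, ∑ t, H s t * v t = μ * v s := by
  set K : Set (S → ℝ) := {x | ∑ s, x s ^ 2 = 1} with hK
  have hKc : IsCompact K := by
    refine Metric.isCompact_of_isClosed_isBounded ?_ ?_
    · exact isClosed_eq (by fun_prop) continuous_const
    · rw [isBounded_iff_forall_norm_le]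
      refine ⟨1, fun x hx => ?_⟩
      rw [pi_norm_le_iff_of_nonneg zero_le_one]
      intro s
      have h1 : x s ^ 2 ≤ ∑ s, x s ^ 2 :=
        single_le_sum (f := fun s => x s ^ 2) (fun i _ => sq_nonneg _) (mem_univ s)
      have h2 : x s ^ 2 ≤ 1 := by
        have : ∑ s, x s ^ 2 = 1 := hx
        linarith
      rw [Real.norm_eq_abs]
      exact abs_le_one_iff_mul_self_le_one.2 (by nlinarith)
  have hKn : K.Nonempty := by
    obtain ⟨s⟩ := (inferInstance : Nonempty S)
    refine ⟨fun t => if t = s then 1 else 0, ?_⟩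
    simp [hK]
  obtain ⟨x, hxK, hxmax⟩ := hKc.exists_isMaxOn hKn (continuous_quad H).continuousOn
  set y : S → ℝ := fun s => |x s| with hy
  have hyK : ∑ s, y s ^ 2 = 1 := by
    have : ∑ s, x s ^ 2 = 1 := hxK
    simpa [hy, sq_abs] using this
  have hyx : quad H x ≤ quad H y := by
    unfold quad
    refine sum_le_sum (fun s _ => sum_le_sum (fun t _ => ?_))
    refine mul_le_mul_of_nonneg_left ?_ (hnn s t)
    simp only [hy, ← abs_mul]
    exact le_abs_self _
  set μ := quad H y with hμ
  have hmax : ∀ z : S → ℝ, quad H z ≤ μ * ∑ s, z s ^ 2 := by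
    intro z
    have hz0 : 0 ≤ ∑ s, z s ^ 2 := sum_nonneg (fun _ _ => sq_nonneg _)
    rcases hz0.eq_or_lt with h0 | h0
    · have hz : ∀ s, z s = 0 := by
        intro s
        have := (sum_eq_zero_iff_of_nonneg (fun i _ => sq_nonneg (z i))).1 h0.symm s (mem_univ s)
        exact pow_eq_zero_iff (two_ne_zero) |>.1 this
      rw [← h0, mul_zero]
      unfold quad
      simp [hz]
    · set c := Real.sqrt (∑ s, z s ^ 2) with hc
      have hc0 : 0 < c := Real.sqrt_pos.2 h0
      have hc2 : c ^ 2 = ∑ s, z s ^ 2 := Real.sq_sqrt hz0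
      have hw : (fun s => c⁻¹ * z s) ∈ K := by
        simp only [hK, Set.mem_ofPred_eq, mul_pow, ← mul_sum]
        rw [← hc2]
        field_simp
      have h1 := (isMaxOn_iff.1 hxmax) _ hw
      rw [quad_smul] at h1
      have h2 : (c⁻¹) ^ 2 * quad H z ≤ μ := h1.trans hyx
      have h3 : quad H z = c ^ 2 * ((c⁻¹) ^ 2 * quad H z) := by
        field_simp
      rw [h3, ← hc2]
      nlinarith [sq_nonneg c]
  have heig : ∀ s, ∑ t, H s t * y t = μ * y s := by
    intro s
    set z : S → ℝ := fun t => if t = s then 1 else 0 with hz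
    have hzy : ∑ t, z t * y t = y s := by simp [hz]
    have hzH : ∑ t, z t * ∑ u, H t u * y u = ∑ u, H s u * y u := by simp [hz]
    have hkey : ∀ t : ℝ, 2 * t * (∑ u, H s u * y u - μ * y s) ≤
        t ^ 2 * (μ * ∑ s, z s ^ 2 - quad H z) := by
      intro t
      have h1 := hmax (fun s => y s + t * z s)
      rw [quad_add H hsymm, hzH] at h1
      have h2 : ∑ s, (y s + t * z s) ^ 2 = 1 + 2 * t * y s + t ^ 2 * ∑ s, z s ^ 2 := by
        rw [← hyK, ← hzy]
        simp only [mul_sum, ← sum_add_distrib]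
        refine sum_congr rfl (fun u _ => ?_)
        ring
      rw [h2] at h1
      nlinarith
    set A := ∑ u, H s u * y u - μ * y s with hA
    set B := μ * ∑ s, z s ^ 2 - quad H z with hB
    have hA0 : A = 0 := by
      by_contra hne
      have hB' : 0 < |B| + 1 := by positivity
      have h1 := hkey (A / (|B| + 1))
      have h2 : 0 < A ^ 2 := by positivity
      have h3 : 2 * (A / (|B| + 1)) * A = 2 * A ^ 2 / (|B| + 1) := by ring
      have h4 : (A / (|B| + 1)) ^ 2 * B ≤ A ^ 2 / (|B| + 1) := by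
        rw [div_pow, div_mul_eq_mul_div, div_le_div_iff₀ (by positivity) hB']
        have h5 : B ≤ |B| + 1 := by
          have := le_abs_self B
          linarith
        have h6 : A ^ 2 * B * (|B| + 1) ≤ A ^ 2 * (|B| + 1) * (|B| + 1) := by gcongr
        nlinarith
      rw [h3] at h1
      have h7 : 0 < A ^ 2 / (|B| + 1) := by positivity
      have h8 : 2 * A ^ 2 / (|B| + 1) = A ^ 2 / (|B| + 1) + A ^ 2 / (|B| + 1) := by ring
      linarith
    linarith
  have hprop : ∀ s t, 0 < H s t → y s = 0 → y t = 0 := by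
    intro s t hst hs
    have h1 := heig s
    rw [hs, mul_zero] at h1
    have h2 := (sum_eq_zero_iff_of_nonneg
      (fun u _ => mul_nonneg (hnn s u) (abs_nonneg (x u)))).1 h1 t (mem_univ t)
    rcases mul_eq_zero.1 h2 with h3 | h3
    · exact absurd h3 hst.ne'
    · exact h3
  refine ⟨μ, y, fun s => ?_, heig⟩
  have hs0 : 0 ≤ y s := abs_nonneg _
  rcases hs0.eq_or_lt with h0 | h0
  · exfalso
    have hall : ∀ t, y t = 0 := by
      intro t
      have h1 := hconn s t
      induction h1 with
      | refl => exact h0.symm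
      | tail _ hbc ih => exact hprop _ _ hbc ih
    rw [sum_eq_zero (fun s _ => by rw [hall s]; ring)] at hyK
    exact zero_ne_one hyK
  · exact h0

end Pool.Agent.Lib.MP_a2947a_pr
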