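import Mathlib
import Pool.Agent.Lib.MP_a2947a_pr.Algebra
import Pool.Agent.Lib.MP_a2947a_pr.Perron

open Finset

namespace Pool.Agent.Lib.MP_a2947a_pr

variable {m : ℕ}

/-- All valid families. -/
noncomputable def VF (m : ℕ) : Finset (Finset (Finset (Fin m))) := univ.filter Valid

lemma mem_VF {P : Finset (Finset (Fin m))} : P ∈ VF m ↔ Valid P := by
  unfold VF
  simp

/-- Sum over all ways to add one set to the family. -/
noncomputable def up (f : Finset (Finset (Fin m)) → ℝ) (P : Finset (Finset (Fin m))) : ℝ :=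
  ∑ C ∈ (act P).powerset.erase ∅, f (insert C P)

/-- Sum over all ways to remove one set from the family. -/
noncomputable def down (f : Finset (Finset (Fin m)) → ℝ) (P : Finset (Finset (Fin m))) : ℝ :=
  ∑ B ∈ P, f (P.erase B)

lemma act_erase {P : Finset (Finset (Fin m))} (h : Valid P) {B : Finset (Fin m)} (hB : B ∈ P) :
    B ⊆ act (P.erase B) := by
  intro x hx
  unfold act
  rw [mem_compl, mem_biUnion]
  rintro ⟨C, hC, hxC⟩
  rw [mem_erase] at hC
  have := h.2 (by exact_mod_cast hC.2) (by exact_mod_cast hB) hC.1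
  exact (disjoint_left.1 this) hxC hx

lemma sum_pairs (F : Finset (Finset (Fin m)) → Finset (Fin m) → ℝ) :
    ∑ P ∈ VF m, ∑ C ∈ (act P).powerset.erase ∅, F P C =
      ∑ P ∈ VF m, ∑ B ∈ P, F (P.erase B) B := by
  rw [sum_sigma', sum_sigma']
  refine sum_bij' (fun x _ => ⟨insert x.2 x.1, x.2⟩) (fun x _ => ⟨x.1.erase x.2, x.2⟩)
    ?_ ?_ ?_ ?_ ?_
  · rintro ⟨P, C⟩ hx
    rw [mem_sigma, mem_VF, mem_erase, mem_powerset] at hx
    obtain ⟨h1, h2, h3⟩ := hx
    rw [mem_sigma, mem_VF]
    exact ⟨h1.insert h3 (nonempty_iff_ne_empty.2 h2), mem_insert_self _ _⟩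
  · rintro ⟨P, B⟩ hx
    rw [mem_sigma, mem_VF] at hx
    obtain ⟨h1, h2⟩ := hx
    rw [mem_sigma, mem_VF, mem_erase, mem_powerset]
    exact ⟨h1.subset (erase_subset _ _), (h1.1 B h2).ne_empty, act_erase h1 h2⟩
  · rintro ⟨P, C⟩ hx
    rw [mem_sigma, mem_VF, mem_erase, mem_powerset] at hx
    obtain ⟨h1, h2, h3⟩ := hx
    simp only
    rw [erase_insert (notMem_of_subset_act h3 (nonempty_iff_ne_empty.2 h2))]
  · rintro ⟨P, B⟩ hx
    rw [mem_sigma, mem_VF] at hx
    simp only
    rw [insert_erase hx.2]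
  · rintro ⟨P, C⟩ hx
    rw [mem_sigma, mem_VF, mem_erase, mem_powerset] at hx
    obtain ⟨h1, h2, h3⟩ := hx
    simp only
    rw [erase_insert (notMem_of_subset_act h3 (nonempty_iff_ne_empty.2 h2))]

lemma sum_up_eq_sum_down (f g : Finset (Finset (Fin m)) → ℝ) :
    ∑ P ∈ VF m, f P * up g P = ∑ P ∈ VF m, down f P * g P := by
  unfold up down
  simp only [mul_sum, sum_mul]
  rw [sum_pairs (fun P C => f P * g (insert C P))]
  refine sum_congr rfl (fun P _ => sum_congr rfl (fun B hB => ?_))
  rw [insert_erase hB]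

/-- The adjacency matrix of the graph on valid families. -/
noncomputable def adj (P Q : Finset (Finset (Fin m))) : ℝ :=
  up (fun R => if R = Q then 1 else 0) P + down (fun R => if R = Q then 1 else 0) P

lemma up_nonneg {f : Finset (Finset (Fin m)) → ℝ} (hf : ∀ P, 0 ≤ f P)
    (P : Finset (Finset (Fin m))) : 0 ≤ up f P := sum_nonneg (fun _ _ => hf _)

lemma down_nonneg {f : Finset (Finset (Fin m)) → ℝ} (hf : ∀ P, 0 ≤ f P)
    (P : Finset (Finset (Fin m))) : 0 ≤ down f P := sum_nonneg (fun _ _ => hf _)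

lemma adj_nonneg (P Q : Finset (Finset (Fin m))) : 0 ≤ adj P Q := by
  unfold adj
  have h : ∀ R, (0 : ℝ) ≤ (if R = Q then 1 else 0) := fun R => by split_ifs <;> norm_num
  exact add_nonneg (up_nonneg h P) (down_nonneg h P)

lemma up_ind_eq_down_ind {P Q : Finset (Finset (Fin m))} (hP : Valid P) (hQ : Valid Q) :
    up (fun R => if R = Q then 1 else 0) P = down (fun R => if R = P then 1 else 0) Q := by
  have h := sum_up_eq_sum_down (fun R => if R = P then (1 : ℝ) else 0)
    (fun R => if R = Q then (1 : ℝ) else 0)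
  simp only [ite_mul, one_mul, zero_mul, mul_ite, mul_one, mul_zero] at h
  rw [sum_ite_eq', sum_ite_eq', if_pos (mem_VF.2 hP), if_pos (mem_VF.2 hQ)] at h
  exact h

lemma adj_symm {P Q : Finset (Finset (Fin m))} (hP : Valid P) (hQ : Valid Q) :
    adj P Q = adj Q P := by
  unfold adj
  rw [up_ind_eq_down_ind hP hQ, ← up_ind_eq_down_ind hQ hP]
  ring

lemma up_mem {P : Finset (Finset (Fin m))} (hP : Valid P) {C : Finset (Fin m)}
    (hC : C ∈ (act P).powerset.erase ∅) : Valid (insert C P) := by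
  rw [mem_erase, mem_powerset] at hC
  exact hP.insert hC.2 (nonempty_iff_ne_empty.2 hC.1)

lemma sum_adj_mul {P : Finset (Finset (Fin m))} (hP : Valid P)
    (f : Finset (Finset (Fin m)) → ℝ) :
    ∑ Q ∈ VF m, adj P Q * f Q = up f P + down f P := by
  unfold adj up down
  simp only [add_mul, sum_add_distrib, sum_mul, ite_mul, one_mul, zero_mul]
  rw [sum_comm, sum_comm (s := VF m) (t := P)]
  congr 1
  · refine sum_congr rfl (fun C hC => ?_)
    rw [sum_ite_eq, if_pos (mem_VF.2 (up_mem hP hC))]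
  · refine sum_congr rfl (fun B hB => ?_)
    rw [sum_ite_eq, if_pos (mem_VF.2 (hP.subset (erase_subset _ _)))]

lemma adj_erase_pos {P : Finset (Finset (Fin m))} {B : Finset (Fin m)} (hB : B ∈ P) :
    0 < adj P (P.erase B) := by
  unfold adj
  have h : ∀ R, (0 : ℝ) ≤ (if R = P.erase B then 1 else 0) := fun R => by
    split_ifs <;> norm_num
  refine add_pos_of_nonneg_of_pos (up_nonneg h P) ?_
  unfold down
  refine lt_of_lt_of_le zero_lt_one ?_
  refine le_trans (le_of_eq ?_) (single_le_sum (fun C _ => h (P.erase C)) hB)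
  simp

/-- The positive eigenvector. -/
theorem exists_eigen (m : ℕ) : ∃ (μ : ℝ) (v : Finset (Finset (Fin m)) → ℝ),
    (∀ P, Valid P → 0 < v P) ∧ (∀ P, 0 ≤ v P) ∧ ∀ P, Valid P → up v P + down v P = μ * v P := by
  classical
  let S := {P : Finset (Finset (Fin m)) // Valid P}
  have hne : Nonempty S := ⟨⟨∅, valid_empty⟩⟩
  obtain ⟨μ, w, hw, hwe⟩ := exists_perron (S := S) (fun P Q => adj P.1 Q.1)
    (fun P Q => adj_symm P.2 Q.2) (fun P Q => adj_nonneg _ _) (by
      have key : ∀ n : ℕ, ∀ P : S, P.1.card = n →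
          Relation.ReflTransGen (fun a b : S => 0 < adj a.1 b.1) P ⟨∅, valid_empty⟩ ∧
          Relation.ReflTransGen (fun a b : S => 0 < adj a.1 b.1) ⟨∅, valid_empty⟩ P := by
        intro n
        induction n with
        | zero =>
          intro P hP
          have : P = ⟨∅, valid_empty⟩ := Subtype.ext (card_eq_zero.1 hP)
          rw [this]
          exact ⟨Relation.ReflTransGen.refl, Relation.ReflTransGen.refl⟩
        | succ n ih =>
          intro P hP
          obtain ⟨B, hB⟩ : P.1.Nonempty := card_pos.1 (by omega)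
          set Q : S := ⟨P.1.erase B, P.2.subset (erase_subset _ _)⟩ with hQ
          have hc : Q.1.card = n := by
            rw [card_erase_of_mem hB, hP]
            rfl
          have h1 : 0 < adj P.1 Q.1 := adj_erase_pos hB
          have h2 : 0 < adj Q.1 P.1 := by
            rw [adj_symm Q.2 P.2]
            exact h1
          exact ⟨Relation.ReflTransGen.head h1 (ih Q hc).1,
            Relation.ReflTransGen.tail (ih Q hc).2 h2⟩
      intro P Q
      exact (key _ P rfl).1.trans (key _ Q rfl).2)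
  refine ⟨μ, fun P => if h : Valid P then w ⟨P, h⟩ else 0, ?_, ?_, ?_⟩
  · intro P hP
    simp only [dif_pos hP]
    exact hw _
  · intro P
    by_cases hP : Valid P
    · simp only [dif_pos hP]
      exact (hw _).le
    · simp only [dif_neg hP, le_refl]
  · intro P hP
    rw [← sum_adj_mul hP]
    simp only [dif_pos hP]
    rw [← hwe ⟨P, hP⟩]
    rw [← sum_subtype_of_mem (p := Valid) (s := VF m)
      (f := fun Q => adj P Q * (if h : Valid Q then w ⟨Q, h⟩ else 0)) (fun Q hQ => mem_VF.1 hQ)]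
    refine sum_congr ?_ ?_
    · ext Q
      simp [mem_subtype, mem_VF, Q.2]
    · intro Q _
      rw [dif_pos Q.2]

end Pool.Agent.Lib.MP_a2947a_pr
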