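import Mathlib
import Pool.Agent.Lib.MP_a2947a_pr.Graph

open Finset

namespace Pool.Agent.Lib.MP_a2947a_pr

variable {m : ℕ}

/-- `∑_{1 ≤ j ≤ a} C(a, j) / j`. -/
noncomputable def gg (a : ℕ) : ℝ := ∑ j ∈ range (a + 1), (a.choose j : ℝ) * (1 / (j : ℝ))

lemma gg_eq (A : Finset (Fin m)) :
    ∑ C ∈ A.powerset.erase ∅, 1 / (C.card : ℝ) = gg A.card := by
  have h := sum_powerset_apply_card (x := A) (fun j : ℕ => 1 / (j : ℝ))
  simp only [nsmul_eq_mul] at h
  unfold gg
  rw [← h, ← add_sum_erase _ _ (empty_mem_powerset A)]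
  simp

lemma gg_zero : gg 0 = 0 := by
  unfold gg
  simp

lemma gg_succ (a : ℕ) : gg (a + 1) = gg a + ((2 : ℝ) ^ (a + 1) - 1) / (a + 1) := by
  have ha : (0 : ℝ) < (a : ℝ) + 1 := by positivity
  have h1 : gg (a + 1) = ∑ j ∈ range (a + 1), ((a + 1).choose (j + 1) : ℝ) * (1 / ((j : ℝ) + 1)) := by
    unfold gg
    rw [sum_range_succ' _ (a + 1)]
    simp
  have h2 : ∀ j : ℕ, ((a + 1).choose (j + 1) : ℝ) * (1 / ((j : ℝ) + 1)) =
      ((a + 1).choose (j + 1) : ℝ) / (a + 1) + (a.choose (j + 1) : ℝ) * (1 / ((j : ℝ) + 1)) := by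
    intro j
    have hj : (0 : ℝ) < (j : ℝ) + 1 := by positivity
    have e1 : ((a + 1).choose (j + 1) : ℝ) = a.choose j + a.choose (j + 1) := by
      exact_mod_cast Nat.choose_succ_succ a j
    have e2 : ((a : ℝ) + 1) * a.choose j = (a + 1).choose (j + 1) * ((j : ℝ) + 1) := by
      exact_mod_cast Nat.add_one_mul_choose_eq a j
    have e3 : ((a + 1).choose (j + 1) : ℝ) / (a + 1) = a.choose j / ((j : ℝ) + 1) := by
      rw [div_eq_div_iff ha.ne' hj.ne']
      linarith
    rw [e3, e1]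
    ring
  have h3 : ∑ j ∈ range (a + 1), ((a + 1).choose (j + 1) : ℝ) = 2 ^ (a + 1) - 1 := by
    have h4 := Nat.sum_range_choose (a + 1)
    rw [sum_range_succ'] at h4
    have h5 : (∑ j ∈ range (a + 1), ((a + 1).choose (j + 1) : ℝ)) + 1 = 2 ^ (a + 1) := by
      exact_mod_cast h4
    linarith
  have h4 : ∑ j ∈ range (a + 1), (a.choose (j + 1) : ℝ) * (1 / ((j : ℝ) + 1)) = gg a := by
    unfold gg
    rw [sum_range_succ]
    have : a.choose (a + 1) = 0 := Nat.choose_eq_zero_of_lt (Nat.lt_succ_self a)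
    rw [this, sum_range_succ' (fun j : ℕ => (a.choose j : ℝ) * (1 / (j : ℝ))) a]
    simp
  rw [h1, sum_congr rfl (fun j _ => h2 j), sum_add_distrib, ← sum_div, h3, h4]
  ring

lemma gg_nonneg (a : ℕ) : 0 ≤ gg a := by
  unfold gg
  exact sum_nonneg (fun _ _ => by positivity)

lemma gg_pos {a : ℕ} (ha : 0 < a) : 0 < gg a := by
  obtain ⟨b, rfl⟩ := Nat.exists_eq_succ_of_ne_zero ha.ne'
  rw [Nat.succ_eq_add_one, gg_succ]
  have h1 := gg_nonneg b
  have h2 : (1 : ℝ) < 2 ^ (b + 1) := one_lt_pow₀ (by norm_num) (by omega)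
  have h3 : 0 < ((2 : ℝ) ^ (b + 1) - 1) / (b + 1) := by
    apply div_pos
    · linarith
    · positivity
  linarith

lemma gg_aux (a : ℕ) : gg a ≤ a * ((2 : ℝ) ^ (a + 1) - 1) / (a + 1) := by
  induction a with
  | zero => rw [gg_zero]; simp
  | succ a ih =>
    rw [gg_succ]
    have ha : (0 : ℝ) ≤ a := Nat.cast_nonneg a
    have h1 : gg a + ((2 : ℝ) ^ (a + 1) - 1) / (a + 1) ≤ 2 ^ (a + 1) - 1 := by
      have h2 : (a : ℝ) * ((2 : ℝ) ^ (a + 1) - 1) / (a + 1) + ((2 : ℝ) ^ (a + 1) - 1) / (a + 1) =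
          2 ^ (a + 1) - 1 := by
        field_simp
      linarith
    refine h1.trans ?_
    push_cast
    rw [le_div_iff₀ (by positivity)]
    have h3 : (2 : ℝ) ^ (a + 1 + 1) = 2 * 2 ^ (a + 1) := by ring
    rw [h3]
    have h4 : (1 : ℝ) ≤ 2 ^ (a + 1) := one_le_pow₀ (by norm_num)
    nlinarith

lemma gg_mono_div (a : ℕ) : ((a : ℝ) + 1) * gg a ≤ a * gg (a + 1) := by
  have ha : (0 : ℝ) ≤ a := Nat.cast_nonneg a
  have h := gg_aux a
  rw [gg_succ]
  have h2 : (a : ℝ) * (gg a + ((2 : ℝ) ^ (a + 1) - 1) / (a + 1)) =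
      a * gg a + a * ((2 : ℝ) ^ (a + 1) - 1) / (a + 1) := by ring
  rw [h2]
  linarith

lemma gg_le_aux (a k : ℕ) : ((a + k : ℕ) : ℝ) * gg a ≤ a * gg (a + k) := by
  induction k with
  | zero => simp
  | succ k ih =>
    rcases Nat.eq_zero_or_pos a with rfl | hpos
    · rw [gg_zero]; simp
    have ha : (0 : ℝ) < a := by exact_mod_cast hpos
    have h1 := gg_mono_div (a + k)
    have h2 := gg_nonneg a
    have hak : (0 : ℝ) < ((a + k : ℕ) : ℝ) := by
      have : 0 < a + k := by omega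
      exact_mod_cast this
    have e : (((a + (k + 1) : ℕ)) : ℝ) = ((a + k : ℕ) : ℝ) + 1 := by push_cast; ring
    have e2 : a + (k + 1) = a + k + 1 := by ring
    rw [e, e2]
    set s : ℝ := ((a + k : ℕ) : ℝ) with hs
    -- (s+1) gg a ≤ a gg (a+k+1)
    have h3 : s * ((s + 1) * gg a) ≤ s * (a * gg (a + k + 1)) := by
      calc s * ((s + 1) * gg a) = (s + 1) * (s * gg a) := by ring
        _ ≤ (s + 1) * (a * gg (a + k)) := by gcongr
        _ = a * ((s + 1) * gg (a + k)) := by ring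
        _ ≤ a * (s * gg (a + k + 1)) := by gcongr
        _ = s * (a * gg (a + k + 1)) := by ring
    exact le_of_mul_le_mul_left h3 hak

lemma gg_le {a : ℕ} (h : a ≤ m) : (m : ℝ) * gg a ≤ a * gg m := by
  have := gg_le_aux a (m - a)
  rwa [Nat.add_sub_cancel' h] at this

/-- Lower bound for the eigenvalue. -/
theorem eigen_lower {μ : ℝ} {v : Finset (Finset (Fin m)) → ℝ} (hm : 0 < m)
    (hv : ∀ P, Valid P → 0 < v P) (hv0 : ∀ P, 0 ≤ v P)
    (he : ∀ P, Valid P → up v P + down v P = μ * v P) : 0 < μ ∧ (2 : ℝ) ^ m - 1 ≤ μ ^ 2 := by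
  have hact : act (∅ : Finset (Finset (Fin m))) = univ := by
    unfold act
    simp
  have h0 := hv ∅ valid_empty
  have hC : ∀ C ∈ (act (∅ : Finset (Finset (Fin m)))).powerset.erase ∅,
      v ∅ ≤ μ * v (insert C ∅) := by
    intro C hC
    have hval := up_mem valid_empty hC
    rw [← he _ hval]
    have h1 := up_nonneg hv0 (insert C ∅)
    have h2 : down v (insert C ∅) = v ∅ := by
      unfold down
      simp
    linarith
  have hμ : 0 < μ := by
    have hmem : (univ : Finset (Fin m)) ∈ (act (∅ : Finset (Finset (Fin m)))).powerset.erase ∅ := by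
      rw [mem_erase, mem_powerset, hact]
      refine ⟨?_, Subset.refl _⟩
      have : (univ : Finset (Fin m)).Nonempty := ⟨⟨0, hm⟩, mem_univ _⟩
      exact this.ne_empty
    have h1 := hC _ hmem
    have h2 := hv _ (up_mem valid_empty hmem)
    by_contra hneg
    have h3 : μ ≤ 0 := not_lt.1 hneg
    have h4 : μ * v (insert univ ∅) ≤ 0 := mul_nonpos_of_nonpos_of_nonneg h3 h2.le
    linarith
  refine ⟨hμ, ?_⟩
  have h1 := he ∅ valid_empty
  have h2 : down v ∅ = 0 := by unfold down; simp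
  rw [h2, add_zero] at h1
  have h3 : μ ^ 2 * v ∅ = ∑ C ∈ (act (∅ : Finset (Finset (Fin m)))).powerset.erase ∅,
      μ * v (insert C ∅) := by
    rw [← mul_sum]
    unfold up at h1
    rw [h1]
    ring
  have h4 : ((2 : ℝ) ^ m - 1) * v ∅ ≤ μ ^ 2 * v ∅ := by
    rw [h3]
    have h5 := card_nsmul_le_sum _ _ _ hC
    have h6 : ((act (∅ : Finset (Finset (Fin m)))).powerset.erase ∅).card = 2 ^ m - 1 := by
      rw [card_erase_of_mem (empty_mem_powerset _), card_powerset, hact, card_univ, Fintype.card_fin]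
    rw [h6, nsmul_eq_mul, Nat.cast_sub Nat.one_le_two_pow] at h5
    push_cast at h5
    exact h5
  exact le_of_mul_le_mul_right h4 h0

/-- Upper bound for the eigenvalue. -/
theorem eigen_upper {μ : ℝ} {v : Finset (Finset (Fin m)) → ℝ} (hm : 0 < m)
    (hv : ∀ P, Valid P → 0 < v P)
    (he : ∀ P, Valid P → up v P + down v P = μ * v P) (hμ : 0 < μ) :
    μ ^ 2 ≤ m * gg m := by
  have hm' : (0 : ℝ) < m := by exact_mod_cast hm
  have hg := gg_pos hm
  set τ := Real.sqrt (m / gg m) with hτ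
  have hτ0 : 0 < τ := Real.sqrt_pos.2 (by positivity)
  have hτ2 : τ ^ 2 = m / gg m := Real.sq_sqrt (by positivity)
  have hS : 0 < ∑ P ∈ VF m, v P ^ 2 := by
    refine sum_pos (fun P hP => by have := hv P (mem_VF.1 hP); positivity) ⟨∅, mem_VF.2 valid_empty⟩
  have h1 : μ * ∑ P ∈ VF m, v P ^ 2 = 2 * ∑ P ∈ VF m, v P * up v P := by
    have h2 : ∑ P ∈ VF m, v P * (up v P + down v P) = μ * ∑ P ∈ VF m, v P ^ 2 := by
      rw [mul_sum]
      refine sum_congr rfl (fun P hP => ?_)
      rw [he P (mem_VF.1 hP)]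
      ring
    rw [← h2]
    simp only [mul_add, sum_add_distrib]
    have h3 := sum_up_eq_sum_down v v
    have h4 : ∑ P ∈ VF m, v P * down v P = ∑ P ∈ VF m, down v P * v P :=
      sum_congr rfl (fun P _ => mul_comm _ _)
    rw [h4, ← h3]
    ring
  have h2 : 2 * ∑ P ∈ VF m, v P * up v P ≤ ∑ P ∈ VF m, (v P ^ 2 * (m / τ)) := by
    have h3 : 2 * ∑ P ∈ VF m, v P * up v P =
        ∑ P ∈ VF m, ∑ C ∈ (act P).powerset.erase ∅, 2 * (v P * v (insert C P)) := by
      unfold up
      simp only [mul_sum]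
    have h4 : ∑ P ∈ VF m, ∑ C ∈ (act P).powerset.erase ∅, 2 * (v P * v (insert C P)) ≤
        ∑ P ∈ VF m, ∑ C ∈ (act P).powerset.erase ∅,
          (v P ^ 2 * (τ * (1 / (C.card : ℝ))) + (C.card : ℝ) / τ * v (insert C P) ^ 2) := by
      refine sum_le_sum (fun P _ => sum_le_sum (fun C hC => ?_))
      rw [mem_erase] at hC
      have hc : (0 : ℝ) < C.card := by
        exact_mod_cast card_pos.2 (nonempty_iff_ne_empty.2 hC.1)
      set a := v P
      set b := v (insert C P)
      have h5 : a ^ 2 * (τ * (1 / (C.card : ℝ))) + (C.card : ℝ) / τ * b ^ 2 - 2 * (a * b) =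
          (τ * a - C.card * b) ^ 2 / (τ * C.card) := by
        field_simp
        ring
      have h6 : 0 ≤ (τ * a - C.card * b) ^ 2 / (τ * C.card) := by positivity
      linarith
    have h5 : ∑ P ∈ VF m, ∑ C ∈ (act P).powerset.erase ∅,
          (v P ^ 2 * (τ * (1 / (C.card : ℝ))) + (C.card : ℝ) / τ * v (insert C P) ^ 2) =
        ∑ P ∈ VF m, v P ^ 2 * (τ * gg (act P).card + (∑ B ∈ P, (B.card : ℝ)) / τ) := by
      simp only [sum_add_distrib, mul_add]
      congr 1
      · refine sum_congr rfl (fun P _ => ?_)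
        rw [← mul_sum, ← mul_sum, gg_eq]
      · rw [sum_pairs (fun P C => (C.card : ℝ) / τ * v (insert C P) ^ 2)]
        refine sum_congr rfl (fun P _ => ?_)
        rw [sum_div, mul_sum]
        refine sum_congr rfl (fun B hB => ?_)
        rw [insert_erase hB]
        ring
    rw [h3]
    refine h4.trans ?_
    rw [h5]
    refine sum_le_sum (fun P hP => ?_)
    refine mul_le_mul_of_nonneg_left ?_ (sq_nonneg _)
    have h6 := card_act (mem_VF.1 hP)
    have h7 : ((act P).card : ℝ) + ∑ B ∈ P, (B.card : ℝ) = m := by exact_mod_cast h6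
    have h8 : (m : ℝ) * gg (act P).card ≤ (act P).card * gg m := gg_le (by omega)
    have h9 : ∑ B ∈ P, (B.card : ℝ) = m - (act P).card := by linarith
    rw [h9]
    have h10 : τ * gg (act P).card ≤ (act P).card / τ := by
      rw [le_div_iff₀ hτ0]
      have h11 : τ * gg (act P).card * τ = τ ^ 2 * gg (act P).card := by ring
      rw [h11, hτ2, div_mul_eq_mul_div, div_le_iff₀ hg]
      exact h8
    have h12 : ((act P).card : ℝ) / τ + (m - (act P).card) / τ = m / τ := by ring
    linarith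
  have h3 : μ * ∑ P ∈ VF m, v P ^ 2 ≤ (m / τ) * ∑ P ∈ VF m, v P ^ 2 := by
    rw [h1, mul_comm ((m : ℝ) / τ), sum_mul]
    exact h2
  have h4 : μ ≤ m / τ := le_of_mul_le_mul_right h3 hS
  calc μ ^ 2 ≤ (m / τ) ^ 2 := by gcongr
    _ = m ^ 2 / τ ^ 2 := by ring
    _ = m * gg m := by
      rw [hτ2]
      field_simp

lemma gg_one : gg 1 = 1 := by
  have := gg_succ 0
  rw [gg_zero] at this
  norm_num at this
  exact this

lemma gg_two : gg 2 = 5 / 2 := by
  have := gg_succ 1
  rw [gg_one] at this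
  norm_num at this
  rw [this]

lemma gg_three : gg 3 = 29 / 6 := by
  have := gg_succ 2
  rw [gg_two] at this
  norm_num at this
  rw [this]

lemma gg_four : gg 4 = 103 / 12 := by
  have := gg_succ 3
  rw [gg_three] at this
  norm_num at this
  rw [this]

lemma mul_gg_le {m : ℕ} (hm : 3 ≤ m) : (m : ℝ) * gg m ≤ 3 * 2 ^ m := by
  induction m, hm using Nat.le_induction with
  | base =>
    rw [gg_three]
    norm_num
  | succ m hm ih =>
    have hm0 : (0 : ℝ) < m := by
      have : 0 < m := by omega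
      exact_mod_cast this
    have hm3 : (3 : ℝ) ≤ m := by exact_mod_cast hm
    rw [gg_succ]
    push_cast
    have h1 : ((m : ℝ) + 1) * (gg m + ((2 : ℝ) ^ (m + 1) - 1) / (m + 1)) =
        m * gg m + gg m + (2 ^ (m + 1) - 1) := by
      field_simp
    rw [h1]
    have h2 : gg m ≤ 2 ^ m := by
      have : 3 * gg m ≤ m * gg m := mul_le_mul_of_nonneg_right hm3 (gg_nonneg m)
      linarith
    have h3 : (2 : ℝ) ^ (m + 1) = 2 * 2 ^ m := by ring
    rw [h3]
    linarith

/-- The numerical consequence. -/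
theorem log_upper {m : ℕ} (hm : 0 < m) {μ : ℝ} (hμ : 0 < μ) (h : μ ^ 2 ≤ m * gg m) :
    Real.log (2 * μ) ≤ 0.4 * m + 1 := by
  have he := Real.exp_one_gt_d9
  have hlog : 2 * Real.log (2 * μ) = Real.log (4 * μ ^ 2) := by
    rw [← Real.log_rpow (by positivity)]
    congr 1
    norm_num
    ring
  have hmono : Real.log (4 * μ ^ 2) ≤ Real.log (4 * (m * gg m)) :=
    Real.log_le_log (by positivity) (by linarith)
  suffices hs : Real.log (4 * (m * gg m)) ≤ 0.8 * m + 2 by linarith
  have hpow : ∀ (x : ℝ) (k : ℕ), 0 < x → x ≤ 2.7 ^ k → Real.log x ≤ k := by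
    intro x k hx hk
    rw [Real.log_le_iff_le_exp hx]
    refine hk.trans ?_
    rw [← Real.exp_one_pow]
    gcongr
    linarith
  rcases Nat.lt_or_ge m 5 with h5 | h5
  · interval_cases m
    · rw [gg_one]
      have := hpow 4 2 (by norm_num) (by norm_num)
      norm_num at this ⊢
      linarith
    · rw [gg_two]
      have := hpow (20 ^ 5) 16 (by norm_num) (by norm_num)
      rw [Real.log_pow] at this
      norm_num at this ⊢
      linarith
    · rw [gg_three]
      have := hpow (58 ^ 5) 21 (by norm_num) (by norm_num)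
      rw [Real.log_pow] at this
      norm_num at this ⊢
      linarith
    · rw [gg_four]
      have h1 := hpow (138 ^ 5) 25 (by norm_num) (by norm_num)
      rw [Real.log_pow] at h1
      have h2 : Real.log (4 * ((4 : ℕ) * (103 / 12))) ≤ Real.log 138 :=
        Real.log_le_log (by norm_num) (by norm_num)
      push_cast at h1 h2 ⊢
      linarith
  · have h1 := mul_gg_le (show 3 ≤ m by omega)
    have hm0 : (0 : ℝ) < m := by exact_mod_cast hm
    have hg := gg_pos hm
    have h2 : Real.log (4 * (m * gg m)) ≤ Real.log (12 * 2 ^ m) :=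
      Real.log_le_log (by positivity) (by linarith)
    have h3 : Real.log (12 * 2 ^ m) = Real.log 12 + m * Real.log 2 := by
      rw [Real.log_mul (by norm_num) (by positivity), Real.log_pow]
    have h4 : Real.log 12 ≤ 2.51 := by
      have := hpow (12 ^ 100) 251 (by norm_num) (by norm_num)
      rw [Real.log_pow] at this
      push_cast at this
      linarith
    have h5' : (5 : ℝ) ≤ m := by exact_mod_cast h5
    have h6 := Real.log_two_lt_d9
    nlinarith

theorem log_lower {m : ℕ} (hm : 0 < m) {μ : ℝ} (hμ : 0 < μ) (h : (2 : ℝ) ^ m - 1 ≤ μ ^ 2) :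
    0.3 * m ≤ Real.log (2 * μ) := by
  have hlog : 2 * Real.log (2 * μ) = Real.log (4 * μ ^ 2) := by
    rw [← Real.log_rpow (by positivity)]
    congr 1
    norm_num
    ring
  have h1 : (2 : ℝ) ≤ 2 ^ m := by
    calc (2 : ℝ) = 2 ^ 1 := by norm_num
      _ ≤ 2 ^ m := pow_le_pow_right₀ (by norm_num) hm
  have h2 : (2 : ℝ) ^ m ≤ 4 * μ ^ 2 := by linarith
  have h3 : Real.log (2 ^ m) ≤ Real.log (4 * μ ^ 2) := Real.log_le_log (by positivity) h2
  rw [Real.log_pow] at h3
  have h4 := Real.log_two_gt_d9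
  have hm0 : (0 : ℝ) < m := by exact_mod_cast hm
  nlinarith

end Pool.Agent.Lib.MP_a2947a_pr
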