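import Mathlib
import Pool.Agent.Lib.MP_a2947a_pr.Bounds
import Pool.Agent.Lib.MP_a2947a_pr.Asymp

open Finset Filter Topology

namespace Pool.Agent.Lib.MP_a2947a_pr

variable {m : ℕ}

lemma card_le_of_valid {P : Finset (Finset (Fin m))} (hP : Valid P) : P.card ≤ m := by
  have h1 := card_act hP
  have h2 : ∑ _B ∈ P, 1 ≤ ∑ B ∈ P, B.card :=
    sum_le_sum (fun B hB => card_pos.2 (hP.1 B hB))
  rw [sum_const, smul_eq_mul, mul_one] at h2
  omega

/-- The scaled moments. -/
noncomputable def Nsc (M : Finset (Finset (Fin m)) → ℝ) (r : ℝ) (P : Finset (Finset (Fin m))) : ℝ :=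
  M P / r ^ P.card

lemma Nsc_nonneg {M : Finset (Finset (Fin m)) → ℝ} {r : ℝ} (hM : ∀ P, 0 ≤ M P) (hr : 0 < r)
    (P : Finset (Finset (Fin m))) : 0 ≤ Nsc M r P := by
  unfold Nsc
  have := hM P
  positivity

lemma up_Nsc (M : Finset (Finset (Fin m)) → ℝ) {r : ℝ} (_hr : 0 < r)
    (P : Finset (Finset (Fin m))) :
    up (Nsc M r) P = up M P / r ^ (P.card + 1) := by
  unfold up
  rw [sum_div]
  refine sum_congr rfl (fun C hC => ?_)
  rw [mem_erase, mem_powerset] at hC
  unfold Nsc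
  rw [card_insert_of_notMem (notMem_of_subset_act hC.2 (nonempty_iff_ne_empty.2 hC.1))]

lemma down_Nsc (M : Finset (Finset (Fin m)) → ℝ) {r : ℝ} (hr : 0 < r)
    (P : Finset (Finset (Fin m))) :
    down (Nsc M r) P = (∑ B ∈ P, M (P.erase B)) * r / r ^ P.card := by
  unfold down
  rw [sum_mul, sum_div]
  refine sum_congr rfl (fun B hB => ?_)
  unfold Nsc
  rw [card_erase_of_mem hB]
  have hc : 0 < P.card := card_pos.2 ⟨B, hB⟩
  have h1 : r ^ P.card = r ^ (P.card - 1) * r := by
    rw [← pow_succ]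
    congr 1
    omega
  rw [h1]
  field_simp

section step

variable {M M' : Finset (Finset (Fin m)) → ℝ} {r : ℝ}

lemma step_lower (hM : ∀ P, 0 ≤ M P) (hr : 0 < r)
    {P : Finset (Finset (Fin m))}
    (hrec : M' P = ∑ P' ∈ P.powerset, (M P' + up M P' / r ^ 2)) :
    Nsc M r P + (up (Nsc M r) P + down (Nsc M r) P) / r ≤ M' P / r ^ P.card := by
  have hup0 : ∀ Q, 0 ≤ up M Q := fun Q => up_nonneg hM Q
  have hF : ∀ P', 0 ≤ M P' + up M P' / r ^ 2 := by
    intro P'
    have := hM P'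
    have := hup0 P'
    positivity
  have h1 : M P + up M P / r ^ 2 + ∑ B ∈ P, M (P.erase B) ≤ M' P := by
    rw [hrec, ← insert_erase (mem_powerset_self P), sum_insert (notMem_erase _ _)]
    refine add_le_add_right ?_ _
    have h2 : ∑ B ∈ P, M (P.erase B) ≤ ∑ B ∈ P, (M (P.erase B) + up M (P.erase B) / r ^ 2) := by
      refine sum_le_sum (fun B _ => ?_)
      have := hup0 (P.erase B)
      have : 0 ≤ up M (P.erase B) / r ^ 2 := by positivity
      linarith
    refine h2.trans ?_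
    have h3 : ∑ B ∈ P, (M (P.erase B) + up M (P.erase B) / r ^ 2) =
        ∑ Q ∈ P.image (fun B => P.erase B), (M Q + up M Q / r ^ 2) := by
      rw [sum_image]
      exact Finset.erase_injOn P
    rw [h3]
    refine sum_le_sum_of_subset_of_nonneg ?_ (fun Q _ _ => hF Q)
    intro Q hQ
    rw [mem_image] at hQ
    obtain ⟨B, hB, rfl⟩ := hQ
    rw [mem_erase, mem_powerset]
    exact ⟨(erase_ssubset hB).ne, erase_subset _ _⟩
  rw [up_Nsc M hr, down_Nsc M hr]
  unfold Nsc
  have h4 : M P / r ^ P.card + (up M P / r ^ (P.card + 1) +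
      (∑ B ∈ P, M (P.erase B)) * r / r ^ P.card) / r =
      (M P + up M P / r ^ 2 + ∑ B ∈ P, M (P.erase B)) / r ^ P.card := by
    field_simp
    ring
  rw [h4]
  gcongr

lemma sum_filter_le_down (N : Finset (Finset (Fin m)) → ℝ) (hN : ∀ P, 0 ≤ N P)
    (P : Finset (Finset (Fin m))) :
    ∑ Q ∈ P.ssubsets.filter (fun Q => Q.card + 1 = P.card), N Q ≤ down N P := by
  unfold down
  have h3 : ∑ B ∈ P, N (P.erase B) = ∑ Q ∈ P.image (fun B => P.erase B), N Q := by
    rw [sum_image]
    exact Finset.erase_injOn P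
  rw [h3]
  refine sum_le_sum_of_subset_of_nonneg ?_ (fun Q _ _ => hN Q)
  intro Q hQ
  rw [mem_filter, mem_ssubsets] at hQ
  obtain ⟨B, hB, hBQ⟩ := exists_of_ssubset hQ.1
  rw [mem_image]
  refine ⟨B, hB, ?_⟩
  symm
  refine eq_of_subset_of_card_le ?_ ?_
  · exact subset_erase.2 ⟨hQ.1.subset, hBQ⟩
  · rw [card_erase_of_mem hB]
    omega

lemma step_upper (hM : ∀ P, 0 ≤ M P) (hr : 1 ≤ r)
    {P : Finset (Finset (Fin m))} (hP : Valid P)
    (hrec : M' P = ∑ P' ∈ P.powerset, (M P' + up M P' / r ^ 2)) :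
    M' P / r ^ P.card ≤ Nsc M r P + (up (Nsc M r) P + down (Nsc M r) P) / r +
      (((VF m).card : ℝ) * (1 + 2 ^ m)) * (∑ Q ∈ VF m, Nsc M r Q) / r ^ 2 := by
  have hr0 : 0 < r := by linarith
  set N := Nsc M r with hN
  have hN0 : ∀ Q, 0 ≤ N Q := fun Q => Nsc_nonneg hM hr0 Q
  have hup0 : ∀ Q, 0 ≤ up N Q := fun Q => up_nonneg hN0 Q
  set T := ∑ Q ∈ VF m, N Q with hT
  have hT0 : 0 ≤ T := sum_nonneg (fun Q _ => hN0 Q)
  have hNT : ∀ Q, Valid Q → N Q ≤ T := fun Q hQ =>
    single_le_sum (f := N) (fun Q _ => hN0 Q) (mem_VF.2 hQ)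
  have hupT : ∀ Q, Valid Q → up N Q ≤ 2 ^ m * T := by
    intro Q hQ
    unfold up
    have h1 := sum_le_card_nsmul ((act Q).powerset.erase ∅) (fun C => N (insert C Q)) T
      (fun C hC => hNT _ (up_mem hQ hC))
    refine h1.trans ?_
    rw [nsmul_eq_mul]
    refine mul_le_mul_of_nonneg_right ?_ hT0
    have h2 : ((act Q).powerset.erase ∅).card ≤ 2 ^ m := by
      refine (card_erase_le).trans ?_
      rw [card_powerset]
      refine Nat.pow_le_pow_right (by norm_num) ?_
      have := card_le_univ (act Q)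
      rwa [Fintype.card_fin] at this
    exact_mod_cast h2
  -- each term in the sum
  have hterm : ∀ Q, Q ⊆ P → (M Q + up M Q / r ^ 2) / r ^ P.card =
      (N Q + up N Q / r) / r ^ (P.card - Q.card) := by
    intro Q hQ
    have hc : Q.card ≤ P.card := card_le_card hQ
    have h1 : r ^ P.card = r ^ Q.card * r ^ (P.card - Q.card) := by
      rw [← pow_add]
      congr 1
      omega
    rw [hN, up_Nsc M hr0, h1]
    unfold Nsc
    field_simp
    ring
  rw [hrec, sum_div, ← insert_erase (mem_powerset_self P), sum_insert (notMem_erase _ _)]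
  have hPP := hterm P (Subset.refl P)
  rw [Nat.sub_self, pow_zero, div_one] at hPP
  rw [hPP]
  have hss : P.powerset.erase P = P.ssubsets := rfl
  rw [hss]
  have h2 : ∑ Q ∈ P.ssubsets, (M Q + up M Q / r ^ 2) / r ^ P.card ≤
      ∑ Q ∈ P.ssubsets, ((if Q.card + 1 = P.card then N Q / r else 0) +
        (T + 2 ^ m * T) / r ^ 2) := by
    refine sum_le_sum (fun Q hQ => ?_)
    rw [mem_ssubsets] at hQ
    have hQv : Valid Q := hP.subset hQ.subset
    have hc : Q.card < P.card := card_lt_card hQ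
    rw [hterm Q hQ.subset]
    have a1 := hN0 Q
    have a2 := hup0 Q
    have a3 := hNT Q hQv
    have a4 := hupT Q hQv
    by_cases hcase : Q.card + 1 = P.card
    · rw [if_pos hcase]
      have : P.card - Q.card = 1 := by omega
      rw [this, pow_one]
      have h3 : (N Q + up N Q / r) / r = N Q / r + up N Q / r ^ 2 := by
        field_simp
      rw [h3]
      have h4 : up N Q / r ^ 2 ≤ (T + 2 ^ m * T) / r ^ 2 := by
        gcongr
        linarith
      linarith
    · rw [if_neg hcase, zero_add]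
      have h5 : r ^ 2 ≤ r ^ (P.card - Q.card) := pow_le_pow_right₀ hr (by omega)
      have h6 : N Q + up N Q / r ≤ T + 2 ^ m * T := by
        have : up N Q / r ≤ up N Q := div_le_self a2 hr
        linarith
      have h7 : 0 ≤ N Q + up N Q / r := by positivity
      calc (N Q + up N Q / r) / r ^ (P.card - Q.card) ≤ (N Q + up N Q / r) / r ^ 2 := by gcongr
        _ ≤ (T + 2 ^ m * T) / r ^ 2 := by gcongr
  have h3 : ∑ Q ∈ P.ssubsets, (if Q.card + 1 = P.card then N Q / r else 0) ≤ down N P / r := by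
    rw [← sum_filter, ← sum_div]
    have := sum_filter_le_down N hN0 P
    gcongr
  have h4 : ∑ _Q ∈ P.ssubsets, (T + 2 ^ m * T) / r ^ 2 ≤
      (((VF m).card : ℝ) * (1 + 2 ^ m)) * T / r ^ 2 := by
    rw [sum_const, nsmul_eq_mul]
    have h5 : P.ssubsets.card ≤ (VF m).card := by
      refine card_le_card (fun Q hQ => ?_)
      rw [mem_ssubsets] at hQ
      exact mem_VF.2 (hP.subset hQ.subset)
    have h6 : (P.ssubsets.card : ℝ) ≤ (VF m).card := by exact_mod_cast h5
    have h7 : ((VF m).card : ℝ) * (1 + 2 ^ m) * T / r ^ 2 =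
        (VF m).card * ((T + 2 ^ m * T) / r ^ 2) := by ring
    rw [h7]
    gcongr
  rw [sum_add_distrib] at h2
  have h8 : N P + (up N P + down N P) / r = N P + up N P / r + down N P / r := by ring
  rw [h8]
  linarith

end step

/-- The main asymptotic statement for solutions of the moment recurrence. -/
theorem moment_growth {μ : ℝ} {v : Finset (Finset (Fin m)) → ℝ}
    (hv : ∀ P, Valid P → 0 < v P) (hv0 : ∀ P, 0 ≤ v P)
    (he : ∀ P, Valid P → up v P + down v P = μ * v P) (hμ : 0 < μ)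
    (M : ℕ → Finset (Finset (Fin m)) → ℝ) (hM0 : ∀ n P, 0 ≤ M n P)
    (hMpos : ∀ n P, Valid P → 0 < M n P)
    (hrec : ∀ n P, Valid P → M (n + 1) P =
      ∑ P' ∈ P.powerset, (M n P' + up (M n) P' / ((n : ℝ) + 1)))
    (hcomp : ∀ n P, Valid P → M n P ≤ ((n : ℝ) + 1) ^ m * M n ∅) :
    Tendsto (fun n : ℕ => Real.log (M n ∅) / Real.sqrt n) atTop (𝓝 (2 * μ)) := by
  set r : ℕ → ℝ := fun n => Real.sqrt ((n : ℝ) + 1) with hr
  have hr2 : ∀ n, r n ^ 2 = (n : ℝ) + 1 := fun n => Real.sq_sqrt (by positivity)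
  have hr1 : ∀ n, 1 ≤ r n := by
    intro n
    simp only [hr, Real.one_le_sqrt]
    have : (0 : ℝ) ≤ n := Nat.cast_nonneg n
    linarith
  have hr0 : ∀ n, 0 < r n := fun n => by linarith [hr1 n]
  set Φ : ℕ → ℝ := fun n => ∑ P ∈ VF m, v P * Nsc (M n) (r n) P with hΦ
  set V := ∑ P ∈ VF m, v P with hV
  have hVne : (VF m).Nonempty := ⟨∅, mem_VF.2 valid_empty⟩
  have hVpos : 0 < V := sum_pos (fun P hP => hv P (mem_VF.1 hP)) hVne
  obtain ⟨Pm, hPm, hmin⟩ := exists_min_image (VF m) v hVne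
  set δ := v Pm with hδ
  have hδ0 : 0 < δ := hv Pm (mem_VF.1 hPm)
  have hNpos : ∀ n P, Valid P → 0 < Nsc (M n) (r n) P := by
    intro n P hP
    unfold Nsc
    have := hMpos n P hP
    have := hr0 n
    positivity
  have hΦpos : ∀ n, 0 < Φ n := fun n =>
    sum_pos (fun P hP => mul_pos (hv P (mem_VF.1 hP)) (hNpos n P (mem_VF.1 hP))) hVne
  set K0 : ℝ := ((VF m).card : ℝ) * (1 + 2 ^ m) with hK0
  have hK00 : 0 ≤ K0 := by positivity
  set K1 : ℝ := V * K0 / δ with hK1
  have hK10 : 0 ≤ K1 := by positivity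
  set K : ℝ := (m : ℝ) + K1 with hK
  have hK' : 0 ≤ K := by positivity
  -- the intermediate sum
  set Ψ : ℕ → ℝ := fun n => ∑ P ∈ VF m, v P * (M (n + 1) P / (r n) ^ P.card) with hΨ
  have hself : ∀ N : Finset (Finset (Fin m)) → ℝ,
      ∑ P ∈ VF m, v P * (up N P + down N P) = μ * ∑ P ∈ VF m, v P * N P := by
    intro N
    have h1 := sum_up_eq_sum_down v N
    have h2 := sum_up_eq_sum_down N v
    have h3 : ∑ P ∈ VF m, v P * down N P = ∑ P ∈ VF m, N P * up v P := by
      rw [h2]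
      exact sum_congr rfl (fun P _ => mul_comm _ _)
    simp only [mul_add, sum_add_distrib]
    rw [h1, h3, ← sum_add_distrib, mul_sum]
    refine sum_congr rfl (fun P hP => ?_)
    have := he P (mem_VF.1 hP)
    calc down v P * N P + N P * up v P = (up v P + down v P) * N P := by ring
      _ = μ * (v P * N P) := by rw [this]; ring
  have hrec' : ∀ n P, Valid P → M (n + 1) P =
      ∑ P' ∈ P.powerset, (M n P' + up (M n) P' / (r n) ^ 2) := by
    intro n P hP
    rw [hr2]
    exact hrec n P hP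
  have hΨlow : ∀ n, Φ n * (1 + μ / r n) ≤ Ψ n := by
    intro n
    have h1 : ∑ P ∈ VF m, v P * (Nsc (M n) (r n) P +
        (up (Nsc (M n) (r n)) P + down (Nsc (M n) (r n)) P) / r n) ≤ Ψ n := by
      refine sum_le_sum (fun P hP => ?_)
      have := step_lower (hM0 n) (hr0 n) (hrec' n P (mem_VF.1 hP))
      exact mul_le_mul_of_nonneg_left this (hv0 P)
    refine le_trans (le_of_eq ?_) h1
    simp only [mul_add, sum_add_distrib, add_div]
    have h2 := hself (Nsc (M n) (r n))
    simp only [mul_add, sum_add_distrib] at h2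
    have h3 : ∑ P ∈ VF m, v P * (up (Nsc (M n) (r n)) P / r n) =
        (∑ P ∈ VF m, v P * up (Nsc (M n) (r n)) P) / r n := by
      rw [sum_div]
      exact sum_congr rfl (fun P _ => by ring)
    have h4 : ∑ P ∈ VF m, v P * (down (Nsc (M n) (r n)) P / r n) =
        (∑ P ∈ VF m, v P * down (Nsc (M n) (r n)) P) / r n := by
      rw [sum_div]
      exact sum_congr rfl (fun P _ => by ring)
    rw [h3, h4, ← add_div, h2]
    simp only [hΦ]
    ring
  have hTΦ : ∀ n, δ * ∑ Q ∈ VF m, Nsc (M n) (r n) Q ≤ Φ n := by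
    intro n
    rw [mul_sum]
    refine sum_le_sum (fun P hP => ?_)
    exact mul_le_mul_of_nonneg_right (hmin P hP) (Nsc_nonneg (hM0 n) (hr0 n) P)
  have hΨup : ∀ n : ℕ, Ψ n ≤ Φ n * (1 + μ / r n + K1 / ((n : ℝ) + 1)) := by
    intro n
    have h1 : Ψ n ≤ ∑ P ∈ VF m, v P * (Nsc (M n) (r n) P +
        (up (Nsc (M n) (r n)) P + down (Nsc (M n) (r n)) P) / r n +
        K0 * (∑ Q ∈ VF m, Nsc (M n) (r n) Q) / (r n) ^ 2) := by
      refine sum_le_sum (fun P hP => ?_)
      have := step_upper (hM0 n) (hr1 n) (mem_VF.1 hP) (hrec' n P (mem_VF.1 hP))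
      exact mul_le_mul_of_nonneg_left this (hv0 P)
    refine h1.trans ?_
    simp only [mul_add, sum_add_distrib, add_div]
    have h2 := hself (Nsc (M n) (r n))
    simp only [mul_add, sum_add_distrib] at h2
    have h3 : ∑ P ∈ VF m, v P * (up (Nsc (M n) (r n)) P / r n) =
        (∑ P ∈ VF m, v P * up (Nsc (M n) (r n)) P) / r n := by
      rw [sum_div]
      exact sum_congr rfl (fun P _ => by ring)
    have h4 : ∑ P ∈ VF m, v P * (down (Nsc (M n) (r n)) P / r n) =
        (∑ P ∈ VF m, v P * down (Nsc (M n) (r n)) P) / r n := by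
      rw [sum_div]
      exact sum_congr rfl (fun P _ => by ring)
    rw [h3, h4, ← add_div, h2, ← sum_mul]
    set T := ∑ Q ∈ VF m, Nsc (M n) (r n) Q with hT
    have h5 : V * (K0 * T / (r n) ^ 2) ≤ Φ n * (K1 / ((n : ℝ) + 1)) := by
      rw [hr2 n]
      have h6 := hTΦ n
      have h7 : V * (K0 * T / ((n : ℝ) + 1)) = (V * K0 / δ) * (δ * T) / ((n : ℝ) + 1) := by
        field_simp
      have h8 : Φ n * (K1 / ((n : ℝ) + 1)) = K1 * Φ n / ((n : ℝ) + 1) := by ring
      rw [h7, h8, ← hK1]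
      gcongr
    have h9 : ∑ P ∈ VF m, v P * Nsc (M n) (r n) P + μ * (∑ P ∈ VF m, v P * Nsc (M n) (r n) P) / r n
        = Φ n * 1 + Φ n * (μ / r n) := by
      simp only [hΦ]
      ring
    rw [h9]
    linarith
  have hΨ0 : ∀ n, 0 ≤ Ψ n := fun n => (mul_nonneg (hΦpos n).le (by
    have := hr0 n
    positivity)).trans (hΨlow n)
  have hrr : ∀ n, r n ≤ r (n + 1) := by
    intro n
    simp only [hr]
    refine Real.sqrt_le_sqrt ?_
    push_cast
    linarith
  have hup : ∀ n : ℕ, Φ (n + 1) ≤ Φ n * (1 + μ / Real.sqrt ((n : ℝ) + 1) + K / ((n : ℝ) + 1)) := by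
    intro n
    have h1 : Φ (n + 1) ≤ Ψ n := by
      refine sum_le_sum (fun P hP => ?_)
      refine mul_le_mul_of_nonneg_left ?_ (hv0 P)
      unfold Nsc
      have := hM0 (n + 1) P
      have := hr0 n
      have := hrr n
      gcongr
    refine h1.trans ((hΨup n).trans ?_)
    have := (hΦpos n).le
    have h2 : K1 / ((n : ℝ) + 1) ≤ K / ((n : ℝ) + 1) := by
      gcongr
      rw [hK]
      have : (0 : ℝ) ≤ m := Nat.cast_nonneg m
      linarith
    refine mul_le_mul_of_nonneg_left ?_ this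
    linarith
  have hlow : ∀ n : ℕ, Φ n * ((1 + μ / Real.sqrt ((n : ℝ) + 1)) * (1 - K / ((n : ℝ) + 1))) ≤
      Φ (n + 1) := by
    intro n
    have hn1 : (0 : ℝ) < (n : ℝ) + 1 := by positivity
    have hpos1 : 0 < 1 + μ / r n := by
      have := hr0 n
      positivity
    rcases le_or_gt (1 - K / ((n : ℝ) + 1)) 0 with h0 | h0
    · have h1 : Φ n * ((1 + μ / r n) * (1 - K / ((n : ℝ) + 1))) ≤ 0 :=
        mul_nonpos_of_nonneg_of_nonpos (hΦpos n).le
          (mul_nonpos_of_nonneg_of_nonpos hpos1.le h0)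
      exact h1.trans (hΦpos (n + 1)).le
    · have h1 : Ψ n * (1 - (m : ℝ) / ((n : ℝ) + 1)) ≤ Φ (n + 1) := by
        rw [sum_mul]
        refine sum_le_sum (fun P hP => ?_)
        rw [mul_assoc]
        refine mul_le_mul_of_nonneg_left ?_ (hv0 P)
        unfold Nsc
        have hk := card_le_of_valid (mem_VF.1 hP)
        set k := P.card
        have hq : 1 - (m : ℝ) / ((n : ℝ) + 1) ≤ (r n / r (n + 1)) ^ k := by
          have e1 : (r n / r (n + 1)) ^ 2 = 1 - 1 / ((n : ℝ) + 2) := by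
            rw [div_pow, hr2, hr2]
            push_cast
            field_simp
            ring
          have e2 : 0 ≤ r n / r (n + 1) := div_nonneg (hr0 n).le (hr0 (n + 1)).le
          have e3 : r n / r (n + 1) ≤ 1 := (div_le_one (hr0 (n + 1))).2 (hrr n)
          have e4 : 1 - 1 / ((n : ℝ) + 2) ≤ r n / r (n + 1) := by
            rw [← e1]
            nlinarith
          have e5 : 0 ≤ 1 - 1 / ((n : ℝ) + 2) := by
            rw [← e1]
            positivity
          have e6 : 1 + (k : ℝ) * (-(1 / ((n : ℝ) + 2))) ≤ (1 + -(1 / ((n : ℝ) + 2))) ^ k :=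
            one_add_mul_le_pow (by linarith) k
          have e7 : (1 - 1 / ((n : ℝ) + 2)) ^ k ≤ (r n / r (n + 1)) ^ k := by gcongr
          have e8 : (k : ℝ) * (1 / ((n : ℝ) + 2)) ≤ (m : ℝ) / ((n : ℝ) + 1) := by
            rw [mul_one_div]
            have : (k : ℝ) ≤ m := by exact_mod_cast hk
            gcongr
            linarith
          have e9 : (1 + -(1 / ((n : ℝ) + 2))) = 1 - 1 / ((n : ℝ) + 2) := by ring
          rw [e9] at e6
          linarith
        have hMn := hM0 (n + 1) P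
        have h2 : M (n + 1) P / r n ^ k * (1 - (m : ℝ) / ((n : ℝ) + 1)) ≤
            M (n + 1) P / r n ^ k * (r n / r (n + 1)) ^ k := by
          have := hr0 n
          gcongr
        refine h2.trans (le_of_eq ?_)
        have h3 := (hr0 n).ne'
        have h4 := (hr0 (n + 1)).ne'
        rw [div_pow]
        field_simp
      refine le_trans ?_ h1
      have h2 : Φ n * ((1 + μ / r n) * (1 - K / ((n : ℝ) + 1))) =
          (Φ n * (1 + μ / r n)) * (1 - K / ((n : ℝ) + 1)) := by ring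
      have h3 : (Φ n * (1 + μ / r n)) * (1 - K / ((n : ℝ) + 1)) ≤ Ψ n * (1 - K / ((n : ℝ) + 1)) :=
        mul_le_mul_of_nonneg_right (hΨlow n) h0.le
      have h4 : 1 - K / ((n : ℝ) + 1) ≤ 1 - (m : ℝ) / ((n : ℝ) + 1) := by
        have : (m : ℝ) / ((n : ℝ) + 1) ≤ K / ((n : ℝ) + 1) := by
          gcongr
          rw [hK]
          linarith
        linarith
      have h5 : Ψ n * (1 - K / ((n : ℝ) + 1)) ≤ Ψ n * (1 - (m : ℝ) / ((n : ℝ) + 1)) :=
        mul_le_mul_of_nonneg_left h4 (hΨ0 n)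
      simp only [hr] at h2 h3
      linarith
  have hmain := log_div_sqrt_tendsto Φ hΦpos μ K hμ.le hK' hup hlow
  -- compare with the moment
  have hsqrt : Tendsto (fun n : ℕ => Real.sqrt (n : ℝ)) atTop atTop :=
    Real.tendsto_sqrt_atTop.comp tendsto_natCast_atTop_atTop
  have hlo : ∀ n, v ∅ * M n ∅ ≤ Φ n := by
    intro n
    have h1 : v ∅ * Nsc (M n) (r n) ∅ ≤ Φ n :=
      single_le_sum (f := fun P => v P * Nsc (M n) (r n) P)
        (fun P _ => mul_nonneg (hv0 P) (Nsc_nonneg (hM0 n) (hr0 n) P)) (mem_VF.2 valid_empty)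
    simpa [Nsc] using h1
  have hhi : ∀ n, Φ n ≤ V * (((n : ℝ) + 1) ^ m * M n ∅) := by
    intro n
    rw [sum_mul]
    refine sum_le_sum (fun P hP => ?_)
    refine mul_le_mul_of_nonneg_left ?_ (hv0 P)
    refine le_trans ?_ (hcomp n P (mem_VF.1 hP))
    unfold Nsc
    exact div_le_self (hM0 n P) (one_le_pow₀ (hr1 n))
  have hvE := hv ∅ valid_empty
  have hlog1 : ∀ n, Real.log (M n ∅) ≤ Real.log (Φ n) - Real.log (v ∅) := by
    intro n
    have hMn := hMpos n ∅ valid_empty
    have := Real.log_le_log (mul_pos hvE hMn) (hlo n)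
    rw [Real.log_mul hvE.ne' hMn.ne'] at this
    linarith
  have hlog2 : ∀ n : ℕ, Real.log (Φ n) - Real.log V - m * Real.log ((n : ℝ) + 1) ≤
      Real.log (M n ∅) := by
    intro n
    have hMn := hMpos n ∅ valid_empty
    have hn1 : (0 : ℝ) < (n : ℝ) + 1 := by positivity
    have := Real.log_le_log (hΦpos n) (hhi n)
    rw [Real.log_mul hVpos.ne' (by positivity), Real.log_mul (by positivity) hMn.ne',
      Real.log_pow] at this
    linarith
  have hlogn : Tendsto (fun n : ℕ => Real.log ((n : ℝ) + 1) / Real.sqrt n) atTop (𝓝 0) := by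
    have h1 : Tendsto (fun n : ℕ => Real.log 2 / Real.sqrt n + Real.log n / Real.sqrt n) atTop
        (𝓝 0) := by
      have h2 : Tendsto (fun n : ℕ => Real.log 2 / Real.sqrt n) atTop (𝓝 0) :=
        hsqrt.const_div_atTop _
      have h3 : Tendsto (fun x : ℝ => Real.log x / x ^ (1 / 2 : ℝ)) atTop (𝓝 0) :=
        (isLittleO_log_rpow_atTop (by norm_num)).tendsto_div_nhds_zero
      have h4 := h3.comp tendsto_natCast_atTop_atTop
      have h5 : Tendsto (fun n : ℕ => Real.log n / Real.sqrt n) atTop (𝓝 0) := by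
        refine h4.congr (fun n => ?_)
        simp only [Function.comp_apply, Real.sqrt_eq_rpow]
      simpa using h2.add h5
    refine squeeze_zero' (Eventually.of_forall (fun n => ?_)) ?_ h1
    · refine div_nonneg (Real.log_nonneg ?_) (Real.sqrt_nonneg _)
      have : (0 : ℝ) ≤ n := Nat.cast_nonneg n
      linarith
    · filter_upwards [eventually_ge_atTop 1] with n hn
      have hn' : (1 : ℝ) ≤ n := by exact_mod_cast hn
      rw [← add_div, ← Real.log_mul (by norm_num) (by linarith)]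
      have h2 : Real.log ((n : ℝ) + 1) ≤ Real.log (2 * n) :=
        Real.log_le_log (by linarith) (by linarith)
      have := Real.sqrt_nonneg (n : ℝ)
      gcongr
  have hc1 : Tendsto (fun n : ℕ => Real.log (v ∅) / Real.sqrt n) atTop (𝓝 0) :=
    hsqrt.const_div_atTop _
  have hc2 : Tendsto (fun n : ℕ => Real.log V / Real.sqrt n) atTop (𝓝 0) :=
    hsqrt.const_div_atTop _
  have hU : Tendsto (fun n : ℕ => Real.log (Φ n) / Real.sqrt n - Real.log (v ∅) / Real.sqrt n) atTop
      (𝓝 (2 * μ)) := by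
    simpa using hmain.sub hc1
  have hL : Tendsto (fun n : ℕ => Real.log (Φ n) / Real.sqrt n - Real.log V / Real.sqrt n -
      m * (Real.log ((n : ℝ) + 1) / Real.sqrt n)) atTop (𝓝 (2 * μ)) := by
    simpa using (hmain.sub hc2).sub (hlogn.const_mul (m : ℝ))
  refine tendsto_of_tendsto_of_tendsto_of_le_of_le hL hU (fun n => ?_) (fun n => ?_)
  · have h1 := hlog2 n
    have h2 := Real.sqrt_nonneg (n : ℝ)
    have h3 : Real.log (Φ n) / Real.sqrt n - Real.log V / Real.sqrt n -
      m * (Real.log ((n : ℝ) + 1) / Real.sqrt n) =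
        (Real.log (Φ n) - Real.log V - m * Real.log ((n : ℝ) + 1)) / Real.sqrt n := by ring
    simp only
    rw [h3]
    gcongr
  · have h1 := hlog1 n
    have h2 := Real.sqrt_nonneg (n : ℝ)
    simp only
    rw [← sub_div]
    gcongr

end Pool.Agent.Lib.MP_a2947a_pr
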