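import Mathlib
import Pool.Agent.Lib.MP_a2947a_pr.Algebra

open Finset MeasureTheory ProbabilityTheory
open scoped ENNReal

namespace Pool.Agent.Lib.MP_a2947a_pr

/-- The Ulam-Kac adder driven by the choices `u n ∈ {0, …, n}`: `X 0 = 1` and
`X (n + 1) = X n + X (u n)`. -/
def adder (u : (n : ℕ) → Fin (n + 1)) : ℕ → ℕ
  | 0 => 1
  | n + 1 => adder u n + adder u (u n)
termination_by n => n
decreasing_by
  · exact Nat.lt_succ_self n
  · exact (u n).isLt

lemma adder_zero (u : (n : ℕ) → Fin (n + 1)) : adder u 0 = 1 := by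
  unfold adder
  rfl

lemma adder_succ (u : (n : ℕ) → Fin (n + 1)) (n : ℕ) :
    adder u (n + 1) = adder u n + adder u (u n) := by
  rw [adder]

lemma adder_congr {u u' : (n : ℕ) → Fin (n + 1)} (n : ℕ) (h : ∀ i, i < n → u i = u' i) :
    ∀ k, k ≤ n → adder u k = adder u' k := by
  intro k
  induction k using Nat.strong_induction_on with
  | _ k ih =>
    intro hk
    match k with
    | 0 => rw [adder_zero, adder_zero]
    | j + 1 =>
      rw [adder_succ, adder_succ, h j (by omega), ih j (by omega) (by omega)]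
      congr 1
      exact ih (u' j) (by have := (u' j).isLt; omega) (by have := (u' j).isLt; omega)

lemma adder_pos (u : (n : ℕ) → Fin (n + 1)) (n : ℕ) : 1 ≤ adder u n := by
  induction n with
  | zero => rw [adder_zero]
  | succ n ih => rw [adder_succ]; omega

lemma adder_mono (u : (n : ℕ) → Fin (n + 1)) : Monotone (adder u) := by
  refine monotone_nat_of_le_succ (fun n => ?_)
  rw [adder_succ]
  omega

lemma adder_le (u : (n : ℕ) → Fin (n + 1)) (n : ℕ) : adder u n ≤ 2 ^ n := by
  induction n with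
  | zero => rw [adder_zero]; norm_num
  | succ n ih =>
    rw [adder_succ, pow_succ]
    have h1 : adder u (u n) ≤ adder u n := adder_mono u (by have := (u n).isLt; omega)
    omega

/-- Extension of a finite tuple of choices by zeros. -/
def extend (n : ℕ) (r : (i : range n) → Fin ((i : ℕ) + 1)) : (n : ℕ) → Fin (n + 1) :=
  fun i => if h : i ∈ range n then r ⟨i, h⟩ else 0

variable {Ω : Type*} [MeasurableSpace Ω] {μ : Measure Ω} [IsProbabilityMeasure μ]
  {U : (n : ℕ) → Ω → Fin (n + 1)} {m : ℕ}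

/-- The value of the adder, as a real random variable. -/
noncomputable def Xr (U : (n : ℕ) → Ω → Fin (n + 1)) (n : ℕ) (ω : Ω) : ℝ :=
  (adder (fun k => U k ω) n : ℝ)

/-- The sums of powers. -/
noncomputable def Yr (U : (n : ℕ) → Ω → Fin (n + 1)) (n : ℕ) (ω : Ω) (j : ℕ) : ℝ :=
  ∑ i ∈ range (n + 1), Xr U i ω ^ j

/-- The mixed moments. -/
noncomputable def M (μ : Measure Ω) (U : (n : ℕ) → Ω → Fin (n + 1)) (n : ℕ)
    (P : Finset (Finset (Fin m))) : ℝ :=
  ∫ ω, mono (Xr U n ω) (Yr U n ω) P ∂μ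

omit [MeasurableSpace Ω] in
lemma factor (g : ((n : ℕ) → Fin (n + 1)) → ℝ) (n : ℕ)
    (hg : ∀ u u', (∀ i, i < n → u i = u' i) → g u = g u') (ω : Ω) :
    g (fun k => U k ω) = (fun r => g (extend n r)) (fun i : range n => U i ω) := by
  simp only
  refine hg _ _ (fun i hi => ?_)
  unfold extend
  rw [dif_pos (mem_range.2 hi)]

lemma measurable_of_dep (hU : ∀ n, Measurable (U n)) (g : ((n : ℕ) → Fin (n + 1)) → ℝ) (n : ℕ)
    (hg : ∀ u u', (∀ i, i < n → u i = u' i) → g u = g u') :
    Measurable (fun ω => g (fun k => U k ω)) := by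
  have : (fun ω => g (fun k => U k ω)) =
      (fun r : ((i : range n) → Fin ((i : ℕ) + 1)) => g (extend n r)) ∘
        (fun ω => fun i : range n => U i ω) := by
    funext ω
    exact factor g n hg ω
  rw [this]
  exact (measurable_of_finite _).comp (measurable_pi_lambda _ (fun i => hU i))

lemma integrable_of_dep (hU : ∀ n, Measurable (U n)) (g : ((n : ℕ) → Fin (n + 1)) → ℝ) (n : ℕ)
    (hg : ∀ u u', (∀ i, i < n → u i = u' i) → g u = g u') :
    Integrable (fun ω => g (fun k => U k ω)) μ := by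
  obtain ⟨C, hC⟩ : ∃ C : ℝ, ∀ r : ((i : range n) → Fin ((i : ℕ) + 1)), ‖g (extend n r)‖ ≤ C := by
    obtain ⟨C, hC⟩ := (Set.finite_range
      (fun r : ((i : range n) → Fin ((i : ℕ) + 1)) => ‖g (extend n r)‖)).bddAbove
    exact ⟨C, fun r => hC ⟨r, rfl⟩⟩
  refine Integrable.of_bound (measurable_of_dep hU g n hg).aestronglyMeasurable C
    (Filter.Eventually.of_forall (fun ω => ?_))
  have := factor (U := U) g n hg ω
  simp only at this
  rw [this]
  exact hC _

omit [IsProbabilityMeasure μ] in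
/-- Independence of the next choice from functions of the past. -/
lemma integral_indep (hU : ∀ n, Measurable (U n)) (hind : iIndepFun U μ)
    (hunif : ∀ n (k : Fin (n + 1)), μ (U n ⁻¹' {k}) = ((n : ℝ≥0∞) + 1)⁻¹)
    (g : ((n : ℕ) → Fin (n + 1)) → ℝ) (n : ℕ)
    (hg : ∀ u u', (∀ i, i < n → u i = u' i) → g u = g u') (k : Fin (n + 1)) :
    ∫ ω, (if U n ω = k then (1 : ℝ) else 0) * g (fun i => U i ω) ∂μ =
      (1 / ((n : ℝ) + 1)) * ∫ ω, g (fun i => U i ω) ∂μ := by
  have h1 := iIndepFun.indepFun_finset (range n) {n} (by simp) hind hU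
  have h2 : IndepFun (fun ω => g (fun i => U i ω)) (fun ω => if U n ω = k then (1 : ℝ) else 0) μ := by
    have := h1.comp (φ := fun r : ((i : range n) → Fin ((i : ℕ) + 1)) => g (extend n r))
      (ψ := fun r : ((i : ({n} : Finset ℕ)) → Fin ((i : ℕ) + 1)) =>
        if r ⟨n, mem_singleton_self n⟩ = k then (1 : ℝ) else 0)
      (measurable_of_finite _) (measurable_of_finite _)
    refine this.congr ?_ ?_
    · exact Filter.Eventually.of_forall (fun ω => (factor g n hg ω).symm)
    · exact Filter.Eventually.of_forall (fun ω => rfl)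
  have hm1 : Measurable (fun ω => g (fun i => U i ω)) := measurable_of_dep hU g n hg
  have hm2 : Measurable (fun ω => if U n ω = k then (1 : ℝ) else 0) :=
    Measurable.ite ((hU n) (measurableSet_singleton k)) measurable_const measurable_const
  have h3 := h2.symm.integral_mul_eq_mul_integral hm2.aestronglyMeasurable hm1.aestronglyMeasurable
  have h4 : ∫ ω, (if U n ω = k then (1 : ℝ) else 0) ∂μ = 1 / ((n : ℝ) + 1) := by
    have : (fun ω => if U n ω = k then (1 : ℝ) else 0) = (U n ⁻¹' {k}).indicator 1 := by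
      funext ω
      by_cases h : U n ω = k
      · rw [if_pos h, Set.indicator_of_mem (by exact h), Pi.one_apply]
      · rw [if_neg h, Set.indicator_of_notMem (by exact h)]
    rw [this, integral_indicator_one ((hU n) (measurableSet_singleton k)), Measure.real, hunif]
    rw [ENNReal.toReal_inv, ENNReal.toReal_add (by simp) (by simp)]
    simp
  rw [← h4]
  exact h3

/-- The monomial in the adder values of a choice sequence. -/
noncomputable def gm (n : ℕ) (P : Finset (Finset (Fin m))) (u : (n : ℕ) → Fin (n + 1)) : ℝ :=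
  mono (adder u n : ℝ) (fun j => ∑ i ∈ range (n + 1), (adder u i : ℝ) ^ j) P

lemma gm_dep (n : ℕ) (P : Finset (Finset (Fin m))) (u u' : (n : ℕ) → Fin (n + 1))
    (h : ∀ i, i < n → u i = u' i) : gm n P u = gm n P u' := by
  have h1 := adder_congr n h
  unfold gm
  rw [h1 n le_rfl]
  congr 1
  funext j
  refine sum_congr rfl (fun i hi => ?_)
  rw [h1 i (by have := mem_range.1 hi; omega)]

/-- The shifted monomial. -/
noncomputable def gs (n : ℕ) (P : Finset (Finset (Fin m))) (k : ℕ)
    (u : (n : ℕ) → Fin (n + 1)) : ℝ :=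
  mono ((adder u n : ℝ) + adder u k)
    (fun j => ∑ i ∈ range (n + 1), (adder u i : ℝ) ^ j + ((adder u n : ℝ) + adder u k) ^ j) P

lemma gs_dep (n : ℕ) (P : Finset (Finset (Fin m))) {k : ℕ} (hk : k ≤ n)
    (u u' : (n : ℕ) → Fin (n + 1))
    (h : ∀ i, i < n → u i = u' i) : gs n P k u = gs n P k u' := by
  have h1 := adder_congr n h
  unfold gs
  rw [h1 n le_rfl, h1 k hk]
  congr 1
  funext j
  congr 1
  refine sum_congr rfl (fun i hi => ?_)
  rw [h1 i (by have := mem_range.1 hi; omega)]

lemma gm_succ (n : ℕ) (P : Finset (Finset (Fin m))) (u : (n : ℕ) → Fin (n + 1)) :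
    gm (n + 1) P u = ∑ k : Fin (n + 1), (if u n = k then (1 : ℝ) else 0) * gs n P k u := by
  simp only [ite_mul, one_mul, zero_mul]
  rw [sum_ite_eq univ (u n) (fun k => gs n P (k : ℕ) u), if_pos (mem_univ _)]
  unfold gm gs
  rw [adder_succ]
  push_cast
  congr 1
  funext j
  rw [sum_range_succ _ (n + 1), adder_succ]
  push_cast
  rfl

omit [IsProbabilityMeasure μ] in
lemma M_eq (n : ℕ) (P : Finset (Finset (Fin m))) :
    M μ U n P = ∫ ω, gm n P (fun k => U k ω) ∂μ := rfl

/-- The recurrence for the mixed moments. -/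
theorem M_succ (hU : ∀ n, Measurable (U n)) (hind : iIndepFun U μ)
    (hunif : ∀ n (k : Fin (n + 1)), μ (U n ⁻¹' {k}) = ((n : ℝ≥0∞) + 1)⁻¹)
    (n : ℕ) {P : Finset (Finset (Fin m))} (hP : Valid P) :
    M μ U (n + 1) P = ∑ P' ∈ P.powerset, (M μ U n P' +
        (∑ C ∈ (act P').powerset.erase ∅, M μ U n (insert C P')) / (n + 1)) := by
  have hn : (0 : ℝ) < n + 1 := by positivity
  rw [M_eq]
  simp_rw [gm_succ]
  rw [integral_finsetSum]
  · have h1 : ∀ k ∈ (univ : Finset (Fin (n + 1))),
        ∫ ω, (if U n ω = k then (1 : ℝ) else 0) * gs n P k (fun i => U i ω) ∂μ =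
          (1 / ((n : ℝ) + 1)) * ∫ ω, gs n P k (fun i => U i ω) ∂μ := by
      intro k _
      exact integral_indep hU hind hunif (gs n P k) n
        (fun u u' h => gs_dep n P (by have := k.isLt; omega) u u' h) k
    rw [sum_congr rfl h1, ← mul_sum, ← integral_finsetSum, ← integral_const_mul]
    · have h2 : ∀ ω, (1 / ((n : ℝ) + 1)) * ∑ k : Fin (n + 1), gs n P k (fun i => U i ω) =
          ∑ P' ∈ P.powerset, (gm n P' (fun i => U i ω) +
            (∑ C ∈ (act P').powerset.erase ∅, gm n (insert C P') (fun i => U i ω)) / (n + 1)) := by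
        intro ω
        have := mono_average hP n (fun k => (adder (fun i => U i ω) k : ℝ))
          (adder (fun i => U i ω) n : ℝ)
        unfold gm gs
        rw [← this, one_div, ← div_eq_inv_mul]
        congr 1
        rw [← Fin.sum_univ_eq_sum_range (fun k => mono ((adder (fun i => U i ω) n : ℝ) +
          adder (fun i => U i ω) k) (fun j => ∑ i ∈ range (n + 1),
          (adder (fun i => U i ω) i : ℝ) ^ j + ((adder (fun i => U i ω) n : ℝ) +
            adder (fun i => U i ω) k) ^ j) P)]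
      simp_rw [h2]
      rw [integral_finsetSum]
      · refine sum_congr rfl (fun P' _ => ?_)
        rw [integral_add, integral_div, integral_finsetSum]
        · rfl
        · intro C _
          exact integrable_of_dep hU _ n (gm_dep n _)
        · exact integrable_of_dep hU _ n (gm_dep n _)
        · exact (integrable_finsetSum _
            (fun C _ => integrable_of_dep hU _ n (gm_dep n _))).div_const _
      · intro P' _
        exact (integrable_of_dep hU _ n (gm_dep n _)).add ((integrable_finsetSum _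
            (fun C _ => integrable_of_dep hU _ n (gm_dep n _))).div_const _)
    · intro k _
      exact integrable_of_dep hU _ n (gs_dep n P (by have := k.isLt; omega))
  · intro k _
    refine integrable_of_dep hU (fun u => (if u n = k then (1 : ℝ) else 0) * gs n P k u) (n + 1)
      (fun u u' h => ?_)
    rw [h n (Nat.lt_succ_self n), gs_dep n P (by have := k.isLt; omega) u u'
      (fun i hi => h i (by omega))]

lemma gm_one_le (n : ℕ) (P : Finset (Finset (Fin m))) (u : (n : ℕ) → Fin (n + 1)) :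
    1 ≤ gm n P u := by
  have h1 : (1 : ℝ) ≤ adder u n := by exact_mod_cast adder_pos u n
  have h2 : ∀ j : ℕ, (1 : ℝ) ≤ ∑ i ∈ range (n + 1), (adder u i : ℝ) ^ j := by
    intro j
    have h3 : (adder u n : ℝ) ^ j ≤ ∑ i ∈ range (n + 1), (adder u i : ℝ) ^ j :=
      single_le_sum (f := fun i => (adder u i : ℝ) ^ j) (fun i _ => by positivity)
        (mem_range.2 (Nat.lt_succ_self n))
    exact (one_le_pow₀ h1).trans h3
  unfold gm mono
  refine one_le_mul_of_one_le_of_one_le (one_le_pow₀ h1) ?_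
  calc (1 : ℝ) = ∏ _B ∈ P, (1 : ℝ) := by simp
    _ ≤ _ := prod_le_prod (fun _ _ => zero_le_one) (fun B _ => h2 _)

lemma gm_le (n : ℕ) {P : Finset (Finset (Fin m))} (hP : Valid P) (u : (n : ℕ) → Fin (n + 1)) :
    gm n P u ≤ ((n : ℝ) + 1) ^ m * gm n (∅ : Finset (Finset (Fin m))) u := by
  have h1 : (1 : ℝ) ≤ adder u n := by exact_mod_cast adder_pos u n
  have h2 : ∀ j : ℕ, ∑ i ∈ range (n + 1), (adder u i : ℝ) ^ j ≤
      ((n : ℝ) + 1) * (adder u n : ℝ) ^ j := by
    intro j
    have h3 := sum_le_card_nsmul (range (n + 1)) (fun i => (adder u i : ℝ) ^ j)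
      ((adder u n : ℝ) ^ j) (fun i hi => by
        have : adder u i ≤ adder u n := adder_mono u (by have := mem_range.1 hi; omega)
        have : (adder u i : ℝ) ≤ adder u n := by exact_mod_cast this
        gcongr)
    rw [card_range, nsmul_eq_mul] at h3
    push_cast at h3
    exact h3
  have hact : act (∅ : Finset (Finset (Fin m))) = univ := by
    unfold act
    simp
  have hc := card_act hP
  have hcard : P.card ≤ m := by
    have h4 : ∑ _B ∈ P, 1 ≤ ∑ B ∈ P, B.card :=
      sum_le_sum (fun B hB => card_pos.2 (hP.1 B hB))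
    rw [sum_const, smul_eq_mul, mul_one] at h4
    omega
  unfold gm mono
  rw [hact, card_univ, Fintype.card_fin, prod_empty, mul_one]
  have h5 : ∏ B ∈ P, (∑ i ∈ range (n + 1), (adder u i : ℝ) ^ B.card) ≤
      ∏ B ∈ P, (((n : ℝ) + 1) * (adder u n : ℝ) ^ B.card) :=
    prod_le_prod (fun B _ => sum_nonneg (fun i _ => by positivity)) (fun B _ => h2 _)
  rw [prod_mul_distrib, prod_const, prod_pow_eq_pow_sum] at h5
  have h6 : ((n : ℝ) + 1) ^ P.card ≤ ((n : ℝ) + 1) ^ m := by
    refine pow_le_pow_right₀ ?_ hcard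
    have : (0 : ℝ) ≤ n := Nat.cast_nonneg n
    linarith
  calc (adder u n : ℝ) ^ (act P).card * ∏ B ∈ P, (∑ i ∈ range (n + 1), (adder u i : ℝ) ^ B.card)
      ≤ (adder u n : ℝ) ^ (act P).card *
        (((n : ℝ) + 1) ^ P.card * (adder u n : ℝ) ^ (∑ B ∈ P, B.card)) := by gcongr
    _ = ((n : ℝ) + 1) ^ P.card * (adder u n : ℝ) ^ m := by
        rw [mul_left_comm, ← pow_add, hc]
    _ ≤ ((n : ℝ) + 1) ^ m * (adder u n : ℝ) ^ m := by gcongr

lemma M_pos (hU : ∀ n, Measurable (U n)) (n : ℕ) (P : Finset (Finset (Fin m))) :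
    0 < M μ U n P := by
  have h : (1 : ℝ) ≤ M μ U n P := by
    rw [M_eq]
    calc (1 : ℝ) = ∫ _ω, (1 : ℝ) ∂μ := by simp
      _ ≤ _ := integral_mono (integrable_const _) (integrable_of_dep hU _ n (gm_dep n P))
        (fun ω => gm_one_le n P _)
  linarith

lemma M_comp (hU : ∀ n, Measurable (U n)) (n : ℕ) {P : Finset (Finset (Fin m))} (hP : Valid P) :
    M μ U n P ≤ ((n : ℝ) + 1) ^ m * M μ U n (∅ : Finset (Finset (Fin m))) := by
  rw [M_eq, M_eq, ← integral_const_mul]
  exact integral_mono (integrable_of_dep hU _ n (gm_dep n P))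
    ((integrable_of_dep hU _ n (gm_dep n _)).const_mul _) (fun ω => gm_le n hP _)

omit [IsProbabilityMeasure μ] in
lemma M_empty (n : ℕ) :
    M μ U n (∅ : Finset (Finset (Fin m))) = ∫ ω, (adder (fun k => U k ω) n : ℝ) ^ m ∂μ := by
  have hact : act (∅ : Finset (Finset (Fin m))) = univ := by
    unfold act
    simp
  unfold M mono Xr
  simp [hact]

end Pool.Agent.Lib.MP_a2947a_pr
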